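import Pool.Agent.H26.GF.Book
import Pool.Graph.R_pool_sql_team_seeded_2aa45f1a.Q282.UK.Ret

/-!
# Graph hypersurfaces over books over arbitrary fields, and weight complexes
-/

set_option autoImplicit false
set_option linter.all false

universe v u

open CategoryTheory Limits AlgebraicGeometry MvPolynomial Pool.Agent.H21.GH Pool.Agent.Y116.UV
  Pool.Agent.Z125.UN Pool.Agent.Q282.UK Pool.Agent.Q282.UM
open scoped Classical

namespace Pool.Agent.H26.GF

/-- **Graph hypersurfaces over books are universal over every field.** -/
theorem universal_all {k : Type} [Field k] {sep : Prop} {P : Sch k → Prop} (hP : Bnd sep P)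
    (hone : P (aff k k))
    (hH : ∀ (n : ℕ) (t : Fin n → k) (N : ℕ) (G : SimpleGraph (Fin N))
      (β : Option (Fin n) ⊕ Option (Fin n) → Fin N), IsBook G β → P (bookS t G β))
    (X : Sch k) (hX : FT sep X) : P X := by
  have h1 : Hold P (one k) := hold_of_rep hP.toUni repOne hone
  refine clo_universal (clo_of_bnd hP.toUni) (S := Set.univ) (Set.mem_univ 0) (Set.mem_univ 1)
    (fun a b c T _ => ?_) presents_univ X hX
  let e := Fintype.equivFin (Fin a × Fin b × Fin c)
  let t : Fin (Fintype.card (Fin a × Fin b × Fin c)) → k := fun s =>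
    T (e.symm s).1 (e.symm s).2.1 (e.symm s).2.2
  exact p_bilT hP h1 (ghyp_of_book (hH _ t)) T fun i j l => Or.inr (Or.inr ⟨e (i, j, l), by simp [t]⟩)

variable {C : Type u} [Category.{v} C] [Preadditive C] {k : Type} [Field k]

/-- All twists `W(Y)(n)` of the weight complexes of the point and of the graph hypersurfaces over books
have the property `P`, for all weights `t_1, …, t_n ∈ k`. -/
def ForAllBooks (D : Weights k C) (P : HK C → Prop) : Prop :=
  AllTwists D P (aff k k) ∧ ∀ (n : ℕ) (t : Fin n → k) (N : ℕ) (G : SimpleGraph (Fin N))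
    (β : Option (Fin n) ⊕ Option (Fin n) → Fin N), IsBook G β → AllTwists D P (bookS t G β)

variable [HasZeroObject C] [HasBinaryBiproducts C] [HasFiniteBiproducts C] {D : Weights k C}
  {Q : C → Prop} {P : HK C → Prop}

lemma dim_poly_quot {σ : Type} [Finite σ] (I : Ideal (MvPolynomial σ k)) :
    topologicalKrullDim (aff k (MvPolynomial σ k ⧸ I)).left ≤ (Nat.card σ : ℕ) := by
  rw [topDim_aff]
  refine (ringKrullDim_quotient_le _).trans ?_
  rw [MvPolynomial.ringKrullDim_of_isNoetherianRing, ringKrullDim_eq_zero_of_field, zero_add]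

/-- **Graph hypersurfaces over books decide every property of motives which extends to weight
complexes.** -/
theorem books_all (hD : IsWeights D) (hP : IsExtension Q P) :
    ForAllVarieties D Q ↔ ForAllBooks D P := by
  constructor
  · intro h
    have h1 : ∀ X : Sch k, FT True X → ∀ N : ℕ, topologicalKrullDim X.left ≤ N →
        AllTwists D P X := fun X hX N hN =>
      all_of_projective hD hP (fun X hX _ => h X hX) X hX hN
    refine ⟨h1 _ (ft_aff True) 0 ?_, fun n t N G β hβ => h1 _ (ft_aff True) _ (dim_poly_quot _)⟩
    rw [topDim_aff, ringKrullDim_eq_zero_of_field]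
    rfl
  · rintro ⟨hp, h⟩ X hX n
    exact of_inZero hP (hD.projective X hX)
      (universal_all (bnd_all hD hP hp) hp h X (ft_projective hX) n)

end Pool.Agent.H26.GF
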