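import Pool.Agent.H26.GF.Strata

/-!
# The complements of the graph hypersurfaces
-/

set_option autoImplicit false
set_option linter.all false

open Matrix MvPolynomial Pool.Agent.H21.GH Pool.Agent.Y116.UV Pool.Agent.Z125.UN
open scoped Classical

namespace Pool.Agent.H26.GF

variable {n : ℕ}

/-- The weight of the pair `v, w`: the variable of the edge, or zero. -/
noncomputable def wt {A : Type} [CommRing A] (G : SimpleGraph (Fin n)) (y : G.edgeSet → A)
    (v w : Fin n) : A :=
  if h : G.Adj v w then y ⟨s(v, w), h⟩ else 0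

/-- The reduced Laplacian of the cone over the graph `G` (the graph with one more vertex, which is
joined to all vertices of `G`; the row and the column of the new vertex are deleted), with the
weights `x v` of the new edges and `y e` of the edges of `G`. -/
noncomputable def lap {A : Type} [CommRing A] (G : SimpleGraph (Fin n)) (x : Fin n → A)
    (y : G.edgeSet → A) : Matrix (Fin n) (Fin n) A :=
  Matrix.diagonal (fun v => x v + ∑ w, wt G y v w) - Matrix.of (wt G y)

/-- The Kirchhoff polynomial of the cone over the graph `G`. -/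
noncomputable def kir (R : Type) [CommRing R] (G : SimpleGraph (Fin n)) :
    MvPolynomial (Fin n ⊕ G.edgeSet) R :=
  (lap G (fun v => X (Sum.inl v)) fun e => X (Sum.inr e)).det

/-- The equations `x_e = - k(a, b)` for the edges `e = {a, b}` with a prescribed value `k(a, b)`. -/
def edgS {R : Type} [CommRing R] (k : Fin n → Fin n → Option R) (G : SimpleGraph (Fin n)) :
    Set (MvPolynomial (Fin n ⊕ G.edgeSet) R) :=
  {p | ∃ (a b : Fin n) (h : G.Adj a b) (r : R), k a b = some r ∧ p = X (Sum.inr ⟨s(a, b), h⟩) + C r}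

/-- The graph hypersurface of the cone over the graph `G`, with prescribed weights `- k(a, b)` of
some edges `{a, b}` of `G`. -/
noncomputable def kirK {R : Type} [CommRing R] (k : Fin n → Fin n → Option R)
    (G : SimpleGraph (Fin n)) : Sch R :=
  aff R (MvPolynomial (Fin n ⊕ G.edgeSet) R ⧸ Ideal.span (insert (kir R G) (edgS k G)))

lemma wt_map {A B : Type} [CommRing A] [CommRing B] (G : SimpleGraph (Fin n)) (y : G.edgeSet → A)
    (g : A →+* B) (v w : Fin n) : wt G (fun e => g (y e)) v w = g (wt G y v w) := by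
  unfold wt
  split_ifs
  · rfl
  · exact (map_zero g).symm

lemma wt_symm {A : Type} [CommRing A] (G : SimpleGraph (Fin n)) (y : G.edgeSet → A)
    (v w : Fin n) : wt G y v w = wt G y w v := by
  unfold wt
  by_cases h : G.Adj v w
  · rw [dif_pos h, dif_pos h.symm]
    congr 1
    exact Subtype.ext Sym2.eq_swap
  · rw [dif_neg h, dif_neg fun h' => h h'.symm]

lemma wt_self {A : Type} [CommRing A] (G : SimpleGraph (Fin n)) (y : G.edgeSet → A)
    (v : Fin n) : wt G y v v = 0 := dif_neg (G.irrefl)

lemma lap_map {A B : Type} [CommRing A] [CommRing B] (G : SimpleGraph (Fin n)) (x : Fin n → A)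
    (y : G.edgeSet → A) (g : A →+* B) :
    lap G (fun v => g (x v)) (fun e => g (y e)) = (lap G x y).map g := by
  ext v w
  rw [lap, lap, Matrix.map_apply, Matrix.sub_apply, Matrix.sub_apply, Matrix.of_apply,
    Matrix.of_apply, wt_map, map_sub, Matrix.diagonal_apply, Matrix.diagonal_apply]
  congr 1
  split_ifs
  · rw [map_add, map_sum]
    simp only [wt_map]
  · exact (map_zero g).symm

lemma lap_symm {A : Type} [CommRing A] (G : SimpleGraph (Fin n)) (x : Fin n → A)
    (y : G.edgeSet → A) : (lap G x y)ᵀ = lap G x y := by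
  rw [lap, transpose_sub, Matrix.diagonal_transpose]
  congr 1
  ext v w
  exact wt_symm G y w v

lemma lap_ne {A : Type} [CommRing A] (G : SimpleGraph (Fin n)) (x : Fin n → A)
    (y : G.edgeSet → A) {v w : Fin n} (h : v ≠ w) : lap G x y v w = - wt G y v w := by
  rw [lap, Matrix.sub_apply, Matrix.diagonal_apply_ne _ h, zero_sub]
  rfl

lemma lap_sum {A : Type} [CommRing A] (G : SimpleGraph (Fin n)) (x : Fin n → A)
    (y : G.edgeSet → A) (v : Fin n) : ∑ w, lap G x y v w = x v := by
  simp only [lap, Matrix.sub_apply, Matrix.of_apply, Finset.sum_sub_distrib]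
  rw [Finset.sum_eq_single v]
  · rw [Matrix.diagonal_apply_eq, add_sub_cancel_right]
  · intro b _ hb
    exact Matrix.diagonal_apply_ne _ (Ne.symm hb)
  · intro h
    exact absurd (Finset.mem_univ _) h

variable {R : Type} [CommRing R]

/-- All families of elements. -/
abbrev vec (R : Type) [CommRing R] (α : Type) : Fn R where
  pt T _ _ := α → T
  mp g v := fun a => g (v a)
  mp_id _ := rfl
  mp_comp _ _ _ := rfl

noncomputable def repVec (R : Type) [CommRing R] (α : Type) : Rep (vec R α) (MvPolynomial α R) where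
  u := X
  ex T _ _ x := ⟨aeval x, funext fun a => aeval_X x a⟩
  un T _ _ g h hgh := MvPolynomial.algHom_ext fun a => congrFun hgh a

/-- the value of the Kirchhoff polynomial -/
noncomputable def kirF (R : Type) [CommRing R] (G : SimpleGraph (Fin n)) :
    Fun (vec R (Fin n ⊕ G.edgeSet)) where
  f T _ _ x := (lap G (fun v => x (Sum.inl v)) fun e => x (Sum.inr e)).det
  nat g x := by
    change (lap G (fun v => g.toRingHom (x (Sum.inl v))) fun e => g.toRingHom (x (Sum.inr e))).det =
      g.toRingHom _
    rw [lap_map, RingHom.map_det]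
    rfl

/-- the edge variables of a matrix -/
noncomputable def edg {T : Type} [CommRing T] (G : SimpleGraph (Fin n)) {W : Matrix (Fin n) (Fin n) T}
    (hW : ∀ a b, W a b = W b a) (e : G.edgeSet) : T :=
  Sym2.lift ⟨fun v w => - W v w, fun v w => congrArg Neg.neg (hW v w)⟩ e.1

lemma wt_edg {T : Type} [CommRing T] (G : SimpleGraph (Fin n)) {W : Matrix (Fin n) (Fin n) T}
    (hW : ∀ a b, W a b = W b a) (hG : ∀ a b, a ≠ b → ¬ G.Adj a b → W a b = 0) {v w : Fin n}
    (h : v ≠ w) : wt G (edg G hW) v w = - W v w := by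
  unfold wt
  split_ifs with h'
  · rfl
  · rw [hG v w h h', neg_zero]

lemma lap_edg {T : Type} [CommRing T] (G : SimpleGraph (Fin n)) {W : Matrix (Fin n) (Fin n) T}
    (hW : ∀ a b, W a b = W b a) (hG : ∀ a b, a ≠ b → ¬ G.Adj a b → W a b = 0) :
    lap G (fun v => ∑ w, W v w) (edg G hW) = W := by
  ext v w
  by_cases h : v = w
  · subst h
    rw [lap, Matrix.sub_apply, Matrix.diagonal_apply_eq, Matrix.of_apply, wt_self, sub_zero,
      ← Finset.sum_add_distrib, Finset.sum_eq_single v]
    · rw [wt_self, add_zero]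
    · intro b _ hb
      rw [wt_edg G hW hG (Ne.symm hb), add_neg_cancel]
    · intro h
      exact absurd (Finset.mem_univ _) h
  · rw [lap_ne G _ _ h, wt_edg G hW hG h, neg_neg]

lemma ind_univ {V T : Type} [Fintype V] [CommRing T] [d : DecidableEq V] :
    ind T (Finset.univ : Finset V) = 1 := by
  ext a b
  rw [Matrix.one_apply]
  simp only [ind, Matrix.diagonal, Matrix.of_apply]
  by_cases h : a = b
  · rw [if_pos h, if_pos h, if_pos (Finset.mem_univ a)]
  · rw [if_neg h, if_neg h]

section pre

variable (k : Fin n → Fin n → Option R) (G : SimpleGraph (Fin n))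

/-- the equation of a pair -/
noncomputable def edF (p : {p : Fin n × Fin n // G.Adj p.1 p.2}) :
    Fun (vec R (Fin n ⊕ G.edgeSet)) where
  f T _ _ x := (kT k T p.1.1 p.1.2).elim 0 fun r => x (Sum.inr ⟨s(p.1.1, p.1.2), p.2⟩) + r
  nat {T T'} _ _ _ _ g x := by
    change ((k p.1.1 p.1.2).map (algebraMap R T')).elim 0 _ =
      g (((k p.1.1 p.1.2).map (algebraMap R T)).elim 0 _)
    cases k p.1.1 p.1.2 with
    | none => exact (map_zero g).symm
    | some r =>
      change g (x _) + algebraMap R T' r = g (x _ + algebraMap R T r)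
      rw [map_add, AlgHom.commutes]

/-- the families of weights with the prescribed values -/
noncomputable abbrev ed : Fn R := van (vec R (Fin n ⊕ G.edgeSet)) (edF k G)

/-- the value of the Kirchhoff polynomial -/
noncomputable def kirG : Fun (ed k G) where
  f T _ _ x := (kirF R G).f T x.1
  nat g x := (kirF R G).nat g x.1

lemma ed_iff {T : Type} [CommRing T] [Algebra R T] (x : (vec R (Fin n ⊕ G.edgeSet)).pt T) :
    (∀ p, (edF k G p).f T x = 0) ↔ ∀ (a b : Fin n) (h : G.Adj a b) (r : R), k a b = some r →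
      x (Sum.inr ⟨s(a, b), h⟩) = - algebraMap R T r := by
  constructor
  · intro h a b hab r hr
    have h1 := h ⟨(a, b), hab⟩
    change ((k a b).map (algebraMap R T)).elim 0 _ = 0 at h1
    rw [hr] at h1
    exact eq_neg_of_add_eq_zero_left h1
  · rintro h ⟨⟨a, b⟩, hab⟩
    change ((k a b).map (algebraMap R T)).elim 0 _ = 0
    cases hr : k a b with
    | none => rfl
    | some r =>
      change x (Sum.inr ⟨s(a, b), hab⟩) + algebraMap R T r = 0
      rw [h a b hab r hr, neg_add_cancel]

/-- The symmetric matrices with a pattern are the Laplacians. -/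
noncomputable def kirIso (hk : ∀ a b r, k a b = some r → G.Adj a b) :
    Iso (inv (ed k G) (kirG k G))
      (FW R k G.Adj (Finset.univ : Finset (Fin n)) fun _ _ => False) where
  fwd T _ _ x :=
    { W := lap G (fun v => x.1.1 (Sum.inl v)) fun e => x.1.1 (Sum.inr e)
      M := (lap G (fun v => x.1.1 (Sum.inl v)) fun e => x.1.1 (Sum.inr e))⁻¹
      sym := lap_symm _ _ _
      pat := fun a b hab h => by
        rw [lap_ne G _ _ hab, wt, dif_neg h, neg_zero]
      fix := fun a b _ _ r hr => by
        obtain ⟨s, hs, rfl⟩ := kT_iff.1 hr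
        have hab := hk a b s hs
        have h1 := (ed_iff k G x.1.1).1 x.1.2 a b hab s hs
        rw [lap_ne G _ _ hab.ne, wt, dif_pos hab, h1, neg_neg]
      supW := by rw [ind_univ, Matrix.one_mul]
      supM := by rw [ind_univ, Matrix.one_mul]
      mul := by rw [ind_univ, Matrix.mul_nonsing_inv _ x.2]
      zer := fun a b h => h.elim }
  bwd T _ _ x := ⟨⟨Sum.elim (fun v => ∑ w, x.W v w) (edg G x.W_symm), (ed_iff k G _).2 (by
    intro a b hab r hr
    change - x.W a b = _
    rw [x.fix a b (Finset.mem_univ _) (Finset.mem_univ _) _ (kT_iff.2 ⟨r, hr, rfl⟩)])⟩, by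
    change IsUnit (lap G (fun v => ∑ w, x.W v w) (edg G x.W_symm)).det
    rw [lap_edg G _ fun a b h h' => x.pat a b h h']
    have h1 := x.mul
    rw [ind_univ] at h1
    exact (Matrix.isUnit_iff_isUnit_det _).1 (IsUnit.of_mul_eq_one _ h1)⟩
  bf T _ _ x := by
    apply Subtype.ext
    apply Subtype.ext
    funext s
    rcases s with v | ⟨e, he⟩
    · exact lap_sum _ _ _ _
    · induction e using Sym2.ind with
      | _ v w =>
        have hvw : G.Adj v w := he
        change - lap G (fun v => x.1.1 (Sum.inl v)) (fun e => x.1.1 (Sum.inr e)) v w = _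
        rw [lap_ne G _ _ hvw.ne, neg_neg, wt, dif_pos hvw]
  fb T _ _ x := PtW.ext (lap_edg G x.W_symm fun a b h h' => x.pat a b h h')
  nat g x := PtW.ext (lap_map G _ _ g.toRingHom)

/-- the edge has a prescribed weight -/
def Pre (e : G.edgeSet) : Prop :=
  ∃ (a b : Fin n) (h : G.Adj a b) (r : R), k a b = some r ∧ e = ⟨s(a, b), h⟩

/-- the prescribed weight -/
noncomputable def prw (e : G.edgeSet) : R :=
  if h : Pre k G e then - h.choose_spec.choose_spec.choose_spec.choose else 0

lemma prw_eq (hks : ∀ a b, k a b = k b a) {a b : Fin n} (h : G.Adj a b) {r : R}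
    (hr : k a b = some r) : prw k G ⟨s(a, b), h⟩ = - r := by
  have hp : Pre k G ⟨s(a, b), h⟩ := ⟨a, b, h, r, hr, rfl⟩
  rw [prw, dif_pos hp]
  set a' := hp.choose with ha'
  set b' := hp.choose_spec.choose with hb'
  have h1 := hp.choose_spec.choose_spec.choose_spec.choose_spec.1
  have h2 := hp.choose_spec.choose_spec.choose_spec.choose_spec.2
  have h3 : s(a, b) = s(a', b') := congrArg Subtype.val h2
  rcases Sym2.eq_iff.1 h3 with ⟨h4, h5⟩ | ⟨h4, h5⟩
  · have h6 : k a b = k a' b' := by rw [h4, h5]
    rw [hr, h1] at h6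
    rw [Option.some_injective _ h6]
  · have h6 : k a b = k a' b' := by rw [h4, h5, hks]
    rw [hr, h1] at h6
    rw [Option.some_injective _ h6]

/-- the families of weights form an affine space -/
noncomputable def edIso (hks : ∀ a b, k a b = k b a) :
    Iso (prd (one R) (lin R (Fin n ⊕ G.edgeSet) fun s => ∀ e, s = Sum.inr e → ¬ Pre k G e))
      (ed k G) where
  fwd T _ _ x := ⟨fun s => Sum.elim (fun v => x.2.1 (Sum.inl v)) (fun e =>
      if Pre k G e then algebraMap R T (prw k G e) else x.2.1 (Sum.inr e)) s, (ed_iff k G _).2 (by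
    intro a b hab r hr
    change (if Pre k G ⟨s(a, b), hab⟩ then _ else _) = _
    rw [if_pos ⟨a, b, hab, r, hr, rfl⟩, prw_eq k G hks hab hr, map_neg])⟩
  bwd T _ _ x := ((), ⟨fun s => Sum.elim (fun v => x.1 (Sum.inl v)) (fun e =>
      if Pre k G e then 0 else x.1 (Sum.inr e)) s, by
    rintro (v | e) h
    · exact absurd (fun e he => absurd he (by simp)) h
    · change (if Pre k G e then (0 : T) else _) = 0
      by_cases he : Pre k G e
      · rw [if_pos he]
      · exact absurd (fun e' he' => by
          have := Sum.inr_injective he'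
          subst this
          exact he) h⟩)
  bf T _ _ x := by
    refine Prod.ext rfl (Subtype.ext (funext ?_))
    rintro (v | e)
    · rfl
    · change (if Pre k G e then (0 : T) else if Pre k G e then _ else x.2.1 (Sum.inr e)) = _
      by_cases he : Pre k G e
      · rw [if_pos he]
        exact (x.2.2 (Sum.inr e) fun h => h e rfl he).symm
      · rw [if_neg he, if_neg he]
  fb T _ _ x := by
    refine Subtype.ext (funext ?_)
    rintro (v | e)
    · rfl
    · change (if Pre k G e then algebraMap R T (prw k G e) else if Pre k G e then (0 : T)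
        else x.1 (Sum.inr e)) = _
      by_cases he : Pre k G e
      · rw [if_pos he]
        obtain ⟨a, b, h, r, hr, rfl⟩ := he
        rw [prw_eq k G hks h hr, map_neg]
        exact ((ed_iff k G x.1).1 x.2 a b h r hr).symm
      · rw [if_neg he, if_neg he]
  nat {T T'} _ _ _ _ g x := by
    refine Subtype.ext (funext ?_)
    rintro (v | e)
    · rfl
    · change (if Pre k G e then algebraMap R T' (prw k G e) else g (x.2.1 (Sum.inr e))) =
        g (if Pre k G e then algebraMap R T (prw k G e) else x.2.1 (Sum.inr e))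
      split_ifs
      · rw [AlgHom.commutes]
      · rfl

end pre

/-! ### Change of the set -/

section cut

variable {Ω Q : Type} [Fintype Ω] [Fintype Q] [DecidableEq Q] {ι : Q → Ω} {U : Finset Ω}
  {Γ : Ω → Ω → Prop} {k : Ω → Ω → Option R}

lemma ind_cut (h : Cut U ∅ ι) (T : Type) [CommRing T] : ind T U = inc T ι * (inc T ι)ᵀ := by
  rw [ind_split h]
  have h0 : ind T (∅ : Finset Ω) = 0 := by
    ext a b
    rw [ind, Matrix.diagonal_apply]
    simp
  rw [h0, zero_add]

lemma inc_map {T T' : Type} [CommRing T] [CommRing T'] (g : T →+* T') :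
    (inc T ι).map g = inc T' ι := by
  ext a q
  rw [Matrix.map_apply, inc, inc, Matrix.of_apply, Matrix.of_apply]
  split_ifs
  · exact map_one g
  · exact map_zero g

noncomputable def cutIso (h : Cut U ∅ ι) :
    Iso (FW R k Γ U fun _ _ => False)
      (FW R (fun p q => k (ι p) (ι q)) (fun p q => Γ (ι p) (ι q)) (Finset.univ : Finset Q)
        fun _ _ => False) where
  fwd T _ _ x :=
    { W := (inc T ι)ᵀ * x.W * inc T ι
      M := (inc T ι)ᵀ * x.M * inc T ι
      sym := by
        simp only [transpose_mul, transpose_transpose, x.sym, Matrix.mul_assoc]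
      pat := fun p q hpq hΓ => by
        rw [mul_inc, incT_mul]
        exact x.pat _ _ (fun h' => hpq (h.inj h')) hΓ
      fix := fun p q _ _ r hr => by
        rw [mul_inc, incT_mul]
        exact x.fix _ _ (h.mem p) (h.mem q) r hr
      supW := by rw [ind_univ, Matrix.one_mul]
      supM := by rw [ind_univ, Matrix.one_mul]
      mul := by
        rw [ind_univ, Matrix.mul_assoc, ← Matrix.mul_assoc (inc T ι), ← Matrix.mul_assoc (inc T ι),
          ← ind_cut h, x.supM, Matrix.mul_assoc, ← Matrix.mul_assoc x.W, x.mul, ind_inc h,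
          incT_inc h]
      zer := fun a b h => h.elim }
  bwd T _ _ y :=
    { W := inc T ι * y.W * (inc T ι)ᵀ
      M := inc T ι * y.M * (inc T ι)ᵀ
      sym := by
        simp only [transpose_mul, transpose_transpose, y.sym, Matrix.mul_assoc]
      pat := fun a b hab hΓ => by
        rcases h.cases a with ha | ⟨p, rfl⟩ | ha
        · exact absurd ha (Finset.notMem_empty _)
        · rcases h.cases b with hb | ⟨q, rfl⟩ | hb
          · exact absurd hb (Finset.notMem_empty _)
          · rw [mul_incT_self h, inc_mul_self h]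
            exact y.pat p q (fun h' => hab (congrArg ι h')) hΓ
          · exact mul_incT_out h _ _ (Or.inl hb)
        · rw [Matrix.mul_assoc]
          exact inc_mul_out h _ _ (Or.inl ha)
      fix := fun a b ha hb r hr => by
        rcases h.cases a with ha' | ⟨p, rfl⟩ | ha'
        · exact absurd ha' (Finset.notMem_empty _)
        · rcases h.cases b with hb' | ⟨q, rfl⟩ | hb'
          · exact absurd hb' (Finset.notMem_empty _)
          · rw [mul_incT_self h, inc_mul_self h]
            exact y.fix p q (Finset.mem_univ _) (Finset.mem_univ _) r hr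
          · exact absurd hb hb'
        · exact absurd ha ha'
      supW := by
        rw [← Matrix.mul_assoc, ← Matrix.mul_assoc, ind_inc h]
      supM := by
        rw [← Matrix.mul_assoc, ← Matrix.mul_assoc, ind_inc h]
      mul := by
        have h1 := y.mul
        rw [ind_univ] at h1
        rw [Matrix.mul_assoc, ← Matrix.mul_assoc _ (inc T ι * y.M),
          ← Matrix.mul_assoc _ (inc T ι), incT_inc h, Matrix.one_mul, ← Matrix.mul_assoc,
          Matrix.mul_assoc (inc T ι), h1, Matrix.mul_one, ind_cut h]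
      zer := fun a b h => h.elim }
  bf T _ _ x := PtW.ext (by
    change inc T ι * ((inc T ι)ᵀ * x.W * inc T ι) * (inc T ι)ᵀ = x.W
    rw [Matrix.mul_assoc, Matrix.mul_assoc, ← ind_cut h, Matrix.mul_assoc, x.W_ind,
      ← Matrix.mul_assoc, ← ind_cut h, x.supW])
  fb T _ _ y := PtW.ext (by
    change (inc T ι)ᵀ * (inc T ι * y.W * (inc T ι)ᵀ) * inc T ι = y.W
    rw [Matrix.mul_assoc, Matrix.mul_assoc, Matrix.mul_assoc, incT_inc h, Matrix.mul_one,
      ← Matrix.mul_assoc, incT_inc h, Matrix.one_mul])
  nat {T T'} _ _ _ _ g x := PtW.ext (by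
    change (inc T' ι)ᵀ * (x.W.map g.toRingHom) * inc T' ι =
      ((inc T ι)ᵀ * x.W * inc T ι).map g.toRingHom
    rw [Matrix.map_mul, Matrix.map_mul, Matrix.transpose_map, inc_map])

end cut

variable {sep : Prop} {P : Sch R → Prop}

def vecIso (α : Type) : Iso (prd (one R) (lin R α fun _ => True)) (vec R α) where
  fwd T _ _ x := x.2.1
  bwd T _ _ x := ((), ⟨x, fun _ h => absurd trivial h⟩)
  bf T _ _ x := rfl
  fb T _ _ x := rfl
  nat g x := rfl

lemma isAff_vec (α : Type) [Finite α] : IsAff (vec R α) :=
  (aff_lin isAff_one α fun _ => True).iso (vecIso α)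

lemma hold_kirK (hP : Uni sep P) (k : Fin n → Fin n → Option R) (G : SimpleGraph (Fin n))
    (h : P (kirK k G)) : Hold P (van (ed k G) fun _ : Unit => kirG k G) := by
  let F : Fn R := vec R (Fin n ⊕ G.edgeSet)
  let φ : Option {p : Fin n × Fin n // G.Adj p.1 p.2} → Fun F := fun o =>
    o.elim (kirF R G) (edF k G)
  let e : Iso (van F φ) (van (ed k G) fun _ : Unit => kirG k G) :=
    { fwd := fun T _ _ x => ⟨⟨x.1, fun p => x.2 (some p)⟩, fun _ => x.2 none⟩
      bwd := fun T _ _ x => ⟨x.1.1, fun o => by
        cases o with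
        | none => exact x.2 ()
        | some p => exact x.1.2 p⟩
      bf := fun T _ _ x => rfl
      fb := fun T _ _ x => rfl
      nat := fun g x => rfl }
  refine Hold.iso ?_ e
  refine hold_of_rep hP ((repVec R (Fin n ⊕ G.edgeSet)).van φ) ?_
  have hI : Ideal.span (insert (kir R G) (edgS k G)) =
      Ideal.span (Set.range fun o => (φ o).f (MvPolynomial (Fin n ⊕ G.edgeSet) R)
        (repVec R (Fin n ⊕ G.edgeSet)).u) := by
    apply le_antisymm
    · rw [Ideal.span_le]
      rintro p (rfl | ⟨a, b, hab, r, hr, rfl⟩)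
      · exact Ideal.subset_span ⟨none, rfl⟩
      · refine Ideal.subset_span ⟨some ⟨(a, b), hab⟩, ?_⟩
        change ((k a b).map (algebraMap R _)).elim 0 _ = _
        rw [hr]
        rfl
    · rw [Ideal.span_le]
      rintro p ⟨o, rfl⟩
      cases o with
      | none => exact Ideal.subset_span (Set.mem_insert _ _)
      | some p =>
        obtain ⟨⟨a, b⟩, hab⟩ := p
        change ((k a b).map (algebraMap R _)).elim 0 _ ∈ _
        cases hr : k a b with
        | none => exact zero_mem _
        | some r => exact Ideal.subset_span (Set.mem_insert_of_mem _ ⟨a, b, hab, r, hr, rfl⟩)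
  exact iso_alg hP (Ideal.quotientEquivAlgOfEq R hI) h

theorem hold_base (hP : Bnd sep P) (hone : Hold P (one R)) {Ω : Type} [Fintype Ω]
    {Γ : Ω → Ω → Prop} {k : Ω → Ω → Option R}
    (hH : ∀ (n : ℕ) (G : SimpleGraph (Fin n)) (ι : Fin n → Ω), Function.Injective ι →
      (∀ p q, G.Adj p q ↔ p ≠ q ∧ Γ (ι p) (ι q)) →
      (∀ a b r, k a b = some r → (∃ p, ι p = a) ∧ ∃ q, ι q = b) →
      P (kirK (fun p q => k (ι p) (ι q)) G))
    (hks : ∀ a b, k a b = k b a) (hka : ∀ a b r, k a b = some r → a ≠ b ∧ Γ a b)
    (hΓ : ∀ a b, Γ a b → Γ b a) (U : Finset Ω)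
    (hU : ∀ a b r, k a b = some r → a ∈ U ∧ b ∈ U) :
    Hold P (FW R k Γ U fun _ _ => False) := by
  let e := Fintype.equivFin {a // a ∈ U}
  let ι : Fin (Fintype.card {a // a ∈ U}) → Ω := fun q => (e.symm q).1
  have hc : Cut U ∅ ι :=
    { inj := Subtype.val_injective.comp e.symm.injective
      mem := fun q => (e.symm q).2
      iff := fun a => by
        refine ⟨fun h => absurd h (Finset.notMem_empty _), fun h => ?_⟩
        refine absurd ?_ (h.2 (e ⟨a, h.1⟩))
        simp [ι] }
  let G : SimpleGraph (Fin (Fintype.card {a // a ∈ U})) :=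
    { Adj := fun p q => p ≠ q ∧ Γ (ι p) (ι q)
      symm := ⟨fun p q h => ⟨h.1.symm, hΓ _ _ h.2⟩⟩
      loopless := ⟨fun p h => h.1 rfl⟩ }
  let k' : Fin (Fintype.card {a // a ∈ U}) → Fin (Fintype.card {a // a ∈ U}) → Option R :=
    fun p q => k (ι p) (ι q)
  have hH' : P (kirK k' G) := by
    refine hH _ G ι hc.inj (fun p q => Iff.rfl) fun a b r h => ?_
    have h1 : ∀ a ∈ U, ∃ p, ι p = a := fun a ha => ⟨e ⟨a, ha⟩, by simp [ι]⟩
    exact ⟨h1 a (hU a b r h).1, h1 b (hU a b r h).2⟩
  have h0 : Hold P (ed k' G) :=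
    (hold_lin hP isAff_one hone _ _).iso (edIso k' G fun a b => hks _ _)
  have h1 : Hold P (inv (ed k' G) (kirG k' G)) :=
    hold_inv hP.toUni ((isAff_vec _).van _) _ h0 (hold_kirK hP.toUni k' G hH')
  have h2 := h1.iso (kirIso k' G fun a b r h => ⟨fun h' => (hka _ _ r h).1 (congrArg ι h'),
    (hka _ _ r h).2⟩)
  have e2 : Iso (FW R k' G.Adj (Finset.univ : Finset (Fin (Fintype.card {a // a ∈ U})))
      fun _ _ => False) (FW R k' (fun p q => Γ (ι p) (ι q)) Finset.univ fun _ _ => False) :=
    { fwd := fun T _ _ x =>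
        { x with pat := fun a b hab h => x.pat a b hab fun h' => h h'.2 }
      bwd := fun T _ _ x =>
        { x with pat := fun a b hab h => x.pat a b hab fun h' => h ⟨hab, h'⟩ }
      bf := fun T _ _ x => rfl
      fb := fun T _ _ x => rfl
      nat := fun g x => rfl }
  exact (h2.iso e2).iso (cutIso hc).symm

end Pool.Agent.H26.GF
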