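import Pool.Agent.H26.GF.Univ
import Pool.Graph.R_pool_sql_team_seeded_3997aac3.Q60.CF.Gen

/-!
# Graph hypersurfaces over books
-/

set_option autoImplicit false
set_option linter.all false

universe v w

open CategoryTheory Limits AlgebraicGeometry MvPolynomial Pool.Agent.H21.GH Pool.Agent.Y116.UV
  Pool.Agent.Z125.UN Pool.Agent.Q282.UK Pool.Agent.Q60.CF
open Q54.HT (LocSeq IsSubquot Occurs bcO isVar_bcO)
open Q54.CU (SchO IsVar)
open scoped Classical

namespace Pool.Agent.H26.GF

variable {R : Type} [CommRing R] {n N : ℕ}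

/-- The weights of the book: the spine `{inl none, inr none}` and the pages with the further edges
`{inl (some k), inr none}`, `{inl (some k), inr (some k)}`, `{inl none, inr (some k)}`. All weights are
one, but the last edge of the page `k` has the weight `t k`. -/
def bw (t : Fin n → R) : Option (Fin n) → Option (Fin n) → Option R
  | _, none => some 1
  | none, some k => some (t k)
  | some l, some k => if l = k then some 1 else none

lemma kp_iff (t : Fin n → R) (x y : Option (Fin n)) (r : R) :
    kp t x y = some r ↔ bw t x y = some (- r) := by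
  rcases x with _ | l <;> rcases y with _ | k
  · change some (-1 : R) = some r ↔ some (1 : R) = some (-r)
    rw [Option.some_inj, Option.some_inj]
    constructor
    · intro h
      rw [← h, neg_neg]
    · intro h
      rw [h, neg_neg]
  · change some (- t k) = some r ↔ some (t k) = some (-r)
    rw [Option.some_inj, Option.some_inj]
    constructor
    · intro h
      rw [← h, neg_neg]
    · intro h
      rw [h, neg_neg]
  · change some (-1 : R) = some r ↔ some (1 : R) = some (-r)
    rw [Option.some_inj, Option.some_inj]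
    constructor
    · intro h
      rw [← h, neg_neg]
    · intro h
      rw [h, neg_neg]
  · change (if l = k then some (-1 : R) else none) = some r ↔
      (if l = k then some (1 : R) else none) = some (-r)
    split_ifs
    · rw [Option.some_inj, Option.some_inj]
      constructor
      · intro h
        rw [← h, neg_neg]
      · intro h
        rw [h, neg_neg]
    · simp

/-- The map `β` embeds the book with `n` pages (`n` cycles of length four with a common edge, the
spine) into the graph `G`. -/
structure IsBook (G : SimpleGraph (Fin N)) (β : Option (Fin n) ⊕ Option (Fin n) → Fin N) : Prop where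
  inj : Function.Injective β
  spine : G.Adj (β (Sum.inl none)) (β (Sum.inr none))
  top : ∀ k, G.Adj (β (Sum.inl (some k))) (β (Sum.inr none))
  side : ∀ k, G.Adj (β (Sum.inl (some k))) (β (Sum.inr (some k)))
  bottom : ∀ k, G.Adj (β (Sum.inl none)) (β (Sum.inr (some k)))

/-- the equations `x_e = 1` or `x_e = t k` for the edges `e` of the book -/
def bookE (t : Fin n → R) (G : SimpleGraph (Fin N)) (β : Option (Fin n) ⊕ Option (Fin n) → Fin N) :
    Set (MvPolynomial (Fin N ⊕ G.edgeSet) R) :=
  {p | ∃ (x y : Option (Fin n)) (h : G.Adj (β (Sum.inl x)) (β (Sum.inr y))) (r : R),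
    bw t x y = some r ∧ p = X (Sum.inr ⟨s(β (Sum.inl x), β (Sum.inr y)), h⟩) - C r}

/-- The graph hypersurface of the cone over the graph `G`, where the edges of the book have the weight
one, with the exception of the edge `bottom k` with the weight `t k`. -/
noncomputable def bookS (t : Fin n → R) (G : SimpleGraph (Fin N))
    (β : Option (Fin n) ⊕ Option (Fin n) → Fin N) : Sch R :=
  aff R (MvPolynomial (Fin N ⊕ G.edgeSet) R ⧸ Ideal.span (insert (kir R G) (bookE t G β)))

lemma edgS_eq {t : Fin n → R} {G : SimpleGraph (Fin N)}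
    {β : Option (Fin n) ⊕ Option (Fin n) → Fin N} {k : Fin N → Fin N → Option R}
    (hk : ∀ a b r, k a b = some r ↔ ∃ x y, kp t x y = some r ∧
      ((β (Sum.inl x) = a ∧ β (Sum.inr y) = b) ∨ (β (Sum.inr y) = a ∧ β (Sum.inl x) = b))) :
    edgS k G = bookE t G β := by
  ext p
  constructor
  · rintro ⟨a, b, h, r, hr, rfl⟩
    obtain ⟨x, y, h1, ⟨rfl, rfl⟩ | ⟨rfl, rfl⟩⟩ := (hk a b r).1 hr
    · refine ⟨x, y, h, - r, (kp_iff t x y r).1 h1, ?_⟩
      rw [map_neg, sub_neg_eq_add]
    · refine ⟨x, y, h.symm, - r, (kp_iff t x y r).1 h1, ?_⟩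
      rw [map_neg, sub_neg_eq_add]
      congr 3
      exact Subtype.ext Sym2.eq_swap
  · rintro ⟨x, y, h, r, hr, rfl⟩
    have h1 : kp t x y = some (- r) := (kp_iff t x y (- r)).2 (by rwa [neg_neg])
    refine ⟨_, _, h, - r, (hk _ _ _).2 ⟨x, y, h1, Or.inl ⟨rfl, rfl⟩⟩, ?_⟩
    rw [map_neg, sub_eq_add_neg]

lemma ghyp_of_book {P : Sch R → Prop} {t : Fin n → R}
    (hH : ∀ (N : ℕ) (G : SimpleGraph (Fin N)) (β : Option (Fin n) ⊕ Option (Fin n) → Fin N),
      IsBook G β → P (bookS t G β)) : GHyp P (kp t) := by
  intro N G β k hβ hk hadj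
  have h1 : IsBook G β :=
    { inj := hβ
      spine := hadj none none (-1) rfl
      top := fun k => hadj (some k) none (-1) rfl
      side := fun k => hadj (some k) (some k) (-1) (if_pos rfl)
      bottom := fun k => hadj none (some k) (- t k) rfl }
  have h2 := hH N G β h1
  unfold bookS at h2
  rw [← edgS_eq hk] at h2
  exact h2

/-- **Graph hypersurfaces over books are universal.** -/
theorem universal_book {sep : Prop} {P : Sch R → Prop} (hP : Bnd sep P) (hone : P (aff R R))
    {t : Fin n → R} (hp : Presents (({0, 1} : Set R) ∪ Set.range t))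
    (hH : ∀ (N : ℕ) (G : SimpleGraph (Fin N)) (β : Option (Fin n) ⊕ Option (Fin n) → Fin N),
      IsBook G β → P (bookS t G β)) (X : Sch R) (hX : FT sep X) : P X := by
  have h1 : Hold P (one R) := hold_of_rep hP.toUni repOne hone
  refine clo_universal (clo_of_bnd hP.toUni) (S := ({0, 1} : Set R) ∪ Set.range t)
    (Or.inl (Or.inl rfl)) (Or.inl (Or.inr rfl)) (fun a b c T hT => ?_) hp X hX
  refine p_bilT hP h1 (ghyp_of_book hH) T fun i j l => ?_
  rcases hT i j l with (h | h) | ⟨k, h⟩
  · exact Or.inl h
  · exact Or.inr (Or.inl h)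
  · exact Or.inr (Or.inr ⟨k, h.symm⟩)

section occ

variable {F : Type} [Field F] {𝓜 : Type w} [Category.{v} 𝓜] [Abelian 𝓜]
  {h : ℤ → ℤ → Sch F → 𝓜} {S : 𝓜}

/-- The varieties in whose homology the simple object does not occur. -/
theorem bnd_not_occurs (hh : IsBorelMoore h) (hS : Simple S) (h1 : ¬ Occurs h S (aff F F)) :
    Bnd True fun X : Sch F => ¬ Occurs h S X where
  iso hX e h2 h3 := h2 (occurs_iso hh hX e h3)
  total i j hX ht hZ hU := by
    rintro ⟨n, s, h2⟩
    obtain ⟨t, ht⟩ := hh.localization i j hX ht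
    rcases h2.exact (ht n s).1 with h3 | h3
    · exact hZ ⟨n, s, h3⟩
    · exact hU ⟨n, s, h3⟩
  opened i j hX ht hZ hX' := by
    rintro ⟨n, s, h2⟩
    obtain ⟨t, ht⟩ := hh.localization i j hX ht
    have h4 : s = s - 1 + 1 := by ring
    rw [h4] at h2
    rcases h2.exact (ht n (s - 1)).2.1 with h3 | h3
    · exact hX' ⟨n, s - 1 + 1, h3⟩
    · exact hZ ⟨n, s - 1, h3⟩
  closed i j hX ht hX' hU := by
    rintro ⟨n, s, h2⟩
    obtain ⟨t, ht⟩ := hh.localization i j hX ht
    rcases h2.exact (ht n s).2.2 with h3 | h3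
    · exact hU ⟨n, s + 1, h3⟩
    · exact hX' ⟨n, s, h3⟩
  space n h2 := h1 (occurs_space hh n h2)
  jouanolou A _ _ _ m f U j hj hr h2 := by
    rintro ⟨n, s, h3⟩
    obtain ⟨e⟩ := hh.bundle A m f U j hj hr n s
    exact h2 ⟨n + m - 1, s, h3.iso e⟩
  torus A _ _ _ h2 h3 := h2 (occurs_torus hh A h3)
  bundle A _ _ _ m f U j hj hr h2 := by
    rintro ⟨n, s, h3⟩
    obtain ⟨e⟩ := hh.bundle A m f U j hj hr (n - m + 1) s
    have h4 : n - (m : ℤ) + 1 + m - 1 = n := by ring
    rw [h4] at e
    exact h2 ⟨n - m + 1, s, h3.iso e.symm⟩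

/-- **A simple object which occurs in the homology of a variety occurs in the homology of the point or
of a graph hypersurface over a book.** -/
theorem occurs_book (hh : IsBorelMoore h) (hS : Simple S) {n : ℕ} {t : Fin n → F}
    (ht : Generates t) {X : Sch F} (hX : FT True X) (hXS : Occurs h S X) :
    Occurs h S (aff F F) ∨ ∃ (N : ℕ) (G : SimpleGraph (Fin N))
      (β : Option (Fin n) ⊕ Option (Fin n) → Fin N), IsBook G β ∧ Occurs h S (bookS t G β) := by
  by_contra hcon
  push Not at hcon
  have h2 : Subfield.closure (({0, 1} : Set F) ∪ Set.range t) = ⊤ := by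
    rw [eq_top_iff, ← ht]
    exact Subfield.closure_mono Set.subset_union_right
  exact universal_book (bnd_not_occurs hh hS hcon.1) hcon.1
    (presents_gen (Or.inl (Or.inl rfl)) (Or.inl (Or.inr rfl)) h2)
    (fun N G β hβ => hcon.2 N G β hβ) X hX hXS

end occ

section gen

variable {F : Type} [Field F] {K : Type} [Field K] [Algebra F K]
variable {𝓜 : Type w} [Category.{v} 𝓜] [Abelian 𝓜]

/-- The object `S` occurs in the homology of the point or in the homology of `Y ⊗_F K` for a graph
hypersurface `Y` over a book, with the weights `1` and `t_1, …, t_n` of the edges of the book. -/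
def Booked (h : ℤ → ℤ → SchO K → 𝓜) {n : ℕ} (t : Fin n → F) (S : 𝓜) : Prop :=
  Occurs h S (bcO F K (aff F F)) ∨ ∃ (N : ℕ) (G : SimpleGraph (Fin N))
    (β : Option (Fin n) ⊕ Option (Fin n) → Fin N), IsBook G β ∧ Occurs h S (bcO F K (bookS t G β))

/-- A simple object occurs in the homology of a variety over `K` if and only if it occurs in the
homology of the point or of one of the graph hypersurfaces. -/
theorem occurs_iffB {h : ℤ → ℤ → SchO K → 𝓜} (hm : HasModels F h)
    (hh : IsBorelMoore fun n s (Y : Sch F) => h n s (bcO F K Y)) {n : ℕ} {t : Fin n → F}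
    (ht : Generates t) {S : 𝓜} (hS : Simple S) :
    (∃ X : SchO K, IsVar X ∧ Occurs h S X) ↔ Booked h t S := by
  constructor
  · rintro ⟨X, hX, n, s, B, j, q, hj, hq⟩
    obtain ⟨Y, hY, hYX⟩ := hm X hX
    obtain ⟨i, p, hip⟩ := hYX n s
    have h1 : Mono i := by
      have : Mono (i ≫ p) := by rw [hip]; infer_instance
      exact mono_of_mono i p
    exact occurs_book hh hS ht (ft_of_isVar hY) ⟨n, s, B, j ≫ i, q, mono_comp _ _, hq⟩
  · rintro (h3 | ⟨N, G, β, -, h3⟩)
    · exact ⟨_, isVar_bcO K (isVar_of_ft (ft_aff True)), h3⟩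
    · exact ⟨_, isVar_bcO K (isVar_of_ft (ft_aff True)), h3⟩

end gen

end Pool.Agent.H26.GF
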