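import Pool.Agent.H26.GF.Frm

/-!
# Elimination of rows and columns
-/

set_option autoImplicit false
set_option linter.all false

open Matrix Pool.Agent.H21.GH
open scoped Classical

namespace Pool.Agent.H26.GF

variable {Ω Q T : Type} [Fintype Ω] [Fintype Q] [DecidableEq Q] [CommRing T]

/-- the inclusion of the rows `ι q` -/
noncomputable def inc (T : Type) [CommRing T] (ι : Q → Ω) : Matrix Ω Q T :=
  Matrix.of fun a q => if a = ι q then 1 else 0

variable {ι : Q → Ω}

lemma mul_inc {κ : Type} (A : Matrix κ Ω T) (a : κ) (q : Q) : (A * inc T ι) a q = A a (ι q) := by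
  rw [Matrix.mul_apply, Finset.sum_eq_single (ι q)]
  · rw [inc, Matrix.of_apply, if_pos rfl, mul_one]
  · intro b _ hb
    rw [inc, Matrix.of_apply, if_neg hb, mul_zero]
  · intro h
    exact absurd (Finset.mem_univ _) h

lemma incT_mul {κ : Type} (A : Matrix Ω κ T) (q : Q) (a : κ) :
    ((inc T ι)ᵀ * A) q a = A (ι q) a := by
  rw [Matrix.mul_apply, Finset.sum_eq_single (ι q)]
  · rw [inc, Matrix.transpose_apply, Matrix.of_apply, if_pos rfl, one_mul]
  · intro b _ hb
    rw [inc, Matrix.transpose_apply, Matrix.of_apply, if_neg hb, zero_mul]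
  · intro h
    exact absurd (Finset.mem_univ _) h

/-- The rows and columns `ι q` of `U`, and the other ones `U0`. -/
structure Cut (U U0 : Finset Ω) (ι : Q → Ω) : Prop where
  inj : Function.Injective ι
  mem : ∀ q, ι q ∈ U
  iff : ∀ a, a ∈ U0 ↔ a ∈ U ∧ ∀ q, a ≠ ι q

variable {U U0 : Finset Ω}

lemma Cut.notMem (h : Cut U U0 ι) (q : Q) : ι q ∉ U0 := fun hq => ((h.iff _).1 hq).2 q rfl

lemma Cut.sub (h : Cut U U0 ι) {a : Ω} (ha : a ∈ U0) : a ∈ U := ((h.iff a).1 ha).1

lemma Cut.cases (h : Cut U U0 ι) (a : Ω) : a ∈ U0 ∨ (∃ q, a = ι q) ∨ a ∉ U := by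
  by_cases h1 : ∃ q, a = ι q
  · exact Or.inr (Or.inl h1)
  · by_cases h2 : a ∈ U
    · exact Or.inl ((h.iff a).2 ⟨h2, fun q hq => h1 ⟨q, hq⟩⟩)
    · exact Or.inr (Or.inr h2)

lemma inc_out (h : Cut U U0 ι) {a : Ω} (ha : a ∉ U ∨ a ∈ U0) (q : Q) : inc T ι a q = 0 := by
  rw [inc, Matrix.of_apply, if_neg]
  rintro rfl
  rcases ha with ha | ha
  · exact ha (h.mem q)
  · exact h.notMem q ha

lemma inc_self (h : Cut U U0 ι) (p q : Q) : inc T ι (ι p) q = if p = q then 1 else 0 := by
  rw [inc, Matrix.of_apply]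
  by_cases hpq : p = q
  · rw [if_pos (congrArg ι hpq), if_pos hpq]
  · rw [if_neg (fun h' => hpq (h.inj h')), if_neg hpq]

lemma incT_inc (h : Cut U U0 ι) : (inc T ι)ᵀ * inc T ι = 1 := by
  ext p q
  rw [incT_mul, inc_self h, Matrix.one_apply]

/-- multiplication with `incᵀ` -/
lemma mul_incT_self (h : Cut U U0 ι) {κ : Type} (A : Matrix κ Q T) (a : κ) (q : Q) :
    (A * (inc T ι)ᵀ) a (ι q) = A a q := by
  rw [Matrix.mul_apply, Finset.sum_eq_single q]
  · rw [Matrix.transpose_apply, inc_self h, if_pos rfl, mul_one]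
  · intro b _ hb
    rw [Matrix.transpose_apply, inc_self h, if_neg (Ne.symm hb), mul_zero]
  · intro h
    exact absurd (Finset.mem_univ _) h

lemma mul_incT_out (h : Cut U U0 ι) {κ : Type} (A : Matrix κ Q T) (a : κ) {b : Ω}
    (hb : b ∉ U ∨ b ∈ U0) : (A * (inc T ι)ᵀ) a b = 0 := by
  rw [Matrix.mul_apply]
  refine Finset.sum_eq_zero fun q _ => ?_
  rw [Matrix.transpose_apply, inc_out h hb, mul_zero]

lemma inc_mul_self (h : Cut U U0 ι) {κ : Type} (A : Matrix Q κ T) (q : Q) (a : κ) :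
    (inc T ι * A) (ι q) a = A q a := by
  rw [Matrix.mul_apply, Finset.sum_eq_single q]
  · rw [inc_self h, if_pos rfl, one_mul]
  · intro b _ hb
    rw [inc_self h, if_neg (Ne.symm hb), zero_mul]
  · intro h
    exact absurd (Finset.mem_univ _) h

lemma inc_mul_out (h : Cut U U0 ι) {κ : Type} (A : Matrix Q κ T) {b : Ω} (a : κ)
    (hb : b ∉ U ∨ b ∈ U0) : (inc T ι * A) b a = 0 := by
  rw [Matrix.mul_apply]
  refine Finset.sum_eq_zero fun q _ => ?_
  rw [inc_out h hb, zero_mul]

lemma ind_split (h : Cut U U0 ι) : ind T U = ind T U0 + inc T ι * (inc T ι)ᵀ := by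
  ext a b
  rw [Matrix.add_apply, ind, ind, Matrix.diagonal_apply, Matrix.diagonal_apply]
  rcases h.cases a with ha | ⟨q, rfl⟩ | ha
  · rw [inc_mul_out h _ _ (Or.inr ha), add_zero, if_pos ha, if_pos (h.sub ha)]
  · rw [inc_mul_self h, Matrix.transpose_apply, if_pos (h.mem q), if_neg (h.notMem q)]
    by_cases hb : ι q = b
    · rw [if_pos hb, if_pos hb, ← hb, inc_self h, if_pos rfl, zero_add]
    · rw [if_neg hb, if_neg hb, zero_add, inc, Matrix.of_apply, if_neg fun h' => hb h'.symm]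
  · rw [inc_mul_out h _ _ (Or.inl ha), add_zero, if_neg ha, if_neg fun h' => ha (h.sub h')]

lemma ind_inc (h : Cut U U0 ι) : ind T U * inc T ι = inc T ι := by
  rw [ind_mul_eq]
  intro a q ha
  exact inc_out h (Or.inl ha) q

variable {Γ Z Z0 : Ω → Ω → Prop} {k : Ω → Ω → Option T}

/-! ### The entries of the larger matrices -/

section up

variable (h : Cut U U0 ι) (x : PtW Γ U0 Z0 T k) (w : Matrix Ω Q T) (N N' : Matrix Q Q T)
  (hw : ∀ a q, a ∉ U0 → w a q = 0)

lemma W_inc (h : Cut U U0 ι) (x : PtW Γ U0 Z0 T k) : x.W * inc T ι = 0 := by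
  ext a q
  rw [mul_inc, x.W_symm, x.W_out _ _ (h.notMem q)]
  rfl

lemma M_inc (h : Cut U U0 ι) (x : PtW Γ U0 Z0 T k) : x.M * inc T ι = 0 := by
  ext a q
  rw [mul_inc, x.M_symm, x.M_out _ _ (h.notMem q)]
  rfl

lemma incT_M (h : Cut U U0 ι) (x : PtW Γ U0 Z0 T k) : (inc T ι)ᵀ * x.M = 0 := by
  ext q a
  rw [incT_mul, x.M_out _ _ (h.notMem q)]
  rfl

include hw in
lemma wT_inc (h : Cut U U0 ι) : wᵀ * inc T ι = 0 := by
  ext p q
  rw [mul_inc, Matrix.transpose_apply, hw _ _ (h.notMem q)]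
  rfl

include h in
lemma addW_00 {a b : Ω} (ha : a ∈ U0) (hb : b ∈ U0) :
    addW x.W x.M (inc T ι) w N' a b = x.W a b := by
  rw [addW, Matrix.add_apply, Matrix.add_apply, Matrix.add_apply, mul_incT_out h _ _ (Or.inr hb),
    inc_mul_out h _ _ (Or.inr ha), Matrix.mul_assoc, inc_mul_out h _ _ (Or.inr ha)]
  simp only [add_zero]

include h hw in
lemma addW_0q {a : Ω} (ha : a ∈ U0) (q : Q) :
    addW x.W x.M (inc T ι) w N' a (ι q) = w a q := by
  rw [addW, Matrix.add_apply, Matrix.add_apply, Matrix.add_apply, mul_incT_self h,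
    inc_mul_out h _ _ (Or.inr ha), Matrix.mul_assoc, inc_mul_out h _ _ (Or.inr ha), x.W_symm,
    x.W_out _ _ (h.notMem q)]
  simp only [add_zero, zero_add]

include h hw in
lemma addW_qq (p q : Q) :
    addW x.W x.M (inc T ι) w N' (ι p) (ι q) = (N' + wᵀ * (x.M * w)) p q := by
  rw [addW, Matrix.add_apply, Matrix.add_apply, Matrix.add_apply, mul_incT_self h,
    inc_mul_self h, mul_incT_self h, inc_mul_self h, x.W_out _ _ (h.notMem p),
    hw _ _ (h.notMem p), Matrix.transpose_apply, hw _ _ (h.notMem q)]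
  simp only [add_zero, zero_add]

include h hw in
lemma addW_out {a : Ω} (ha : a ∉ U) (b : Ω) : addW x.W x.M (inc T ι) w N' a b = 0 := by
  have ha0 : a ∉ U0 := fun h' => ha (h.sub h')
  rw [addW, Matrix.add_apply, Matrix.add_apply, Matrix.add_apply,
    inc_mul_out h _ _ (Or.inl ha), Matrix.mul_assoc (inc T ι), inc_mul_out h _ _ (Or.inl ha),
    x.W_out _ _ ha0, Matrix.mul_apply, Finset.sum_eq_zero fun q _ => by rw [hw a q ha0, zero_mul]]
  simp only [add_zero]

/-- the vectors `e - M w` -/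
noncomputable def nu : Matrix Ω Q T := inc T ι - x.M * w

include h in
lemma nu_q (p q : Q) : nu (ι := ι) x w (ι p) q = if p = q then 1 else 0 := by
  rw [nu, Matrix.sub_apply, inc_self h, Matrix.mul_apply, Finset.sum_eq_zero fun a _ => by
    rw [x.M_out _ _ (h.notMem p), zero_mul], sub_zero]

include h in
lemma nu_0 {a : Ω} (ha : a ∈ U0) (q : Q) : nu (ι := ι) x w a q = - (x.M * w) a q := by
  rw [nu, Matrix.sub_apply, inc_out h (Or.inr ha), zero_sub]

include h in
lemma nu_out {a : Ω} (ha : a ∉ U) (q : Q) : nu (ι := ι) x w a q = 0 := by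
  rw [nu, Matrix.sub_apply, inc_out h (Or.inl ha), Matrix.mul_apply,
    Finset.sum_eq_zero fun b _ => by rw [x.M_out _ _ fun h' => ha (h.sub h'), zero_mul], sub_zero]

lemma addM_eq (a b : Ω) : addM x.M (inc T ι) w N a b =
    x.M a b + ∑ q, (∑ p, nu (ι := ι) x w a p * N p q) * nu (ι := ι) x w b q := by
  rw [addM, Matrix.add_apply]
  rfl

include h in
lemma addM_q (p : Q) (b : Ω) : addM x.M (inc T ι) w N (ι p) b =
    ∑ q, N p q * nu (ι := ι) x w b q := by
  rw [addM_eq, x.M_out _ _ (h.notMem p), zero_add]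
  refine Finset.sum_congr rfl fun q _ => ?_
  congr 1
  rw [Finset.sum_eq_single p]
  · rw [nu_q h, if_pos rfl, one_mul]
  · intro c _ hc
    rw [nu_q h, if_neg (Ne.symm hc), zero_mul]
  · intro h
    exact absurd (Finset.mem_univ _) h

include h in
lemma addM_qq (p q : Q) : addM x.M (inc T ι) w N (ι p) (ι q) = N p q := by
  rw [addM_q h, Finset.sum_eq_single q]
  · rw [nu_q h, if_pos rfl, mul_one]
  · intro c _ hc
    rw [nu_q h, if_neg (Ne.symm hc), mul_zero]
  · intro h
    exact absurd (Finset.mem_univ _) h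

/-- the larger matrix -/
noncomputable def upPt (h : Cut U U0 ι) (hΓ : ∀ a b, Γ a b → Γ b a)
    (hQ : ∀ p q, p ≠ q → Γ (ι p) (ι q)) (x : PtW Γ U0 Z0 T k) (w : Matrix Ω Q T)
    (N N' : Matrix Q Q T) (hw : ∀ a q, a ∉ U0 → w a q = 0) (hwΓ : ∀ a q, ¬ Γ a (ι q) → w a q = 0)
    (hN : N' * N = 1) (hN' : N'ᵀ = N') (hZ : ∀ a b, Z a b → addM x.M (inc T ι) w N a b = 0)
    (hk : ∀ q b, k (ι q) b = none ∧ k b (ι q) = none) :
    PtW Γ U Z T k where
  W := addW x.W x.M (inc T ι) w N'
  M := addM x.M (inc T ι) w N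
  sym := addW_sym x.sym x.msym hN'
  pat := by
    have hs := addW_sym (E := inc T ι) (w := w) x.sym x.msym hN'
    have hs' : ∀ a b, addW x.W x.M (inc T ι) w N' a b = addW x.W x.M (inc T ι) w N' b a :=
      fun a b => congrFun (congrFun hs b) a
    intro a b hab hΓab
    rcases h.cases a with ha | ⟨p, rfl⟩ | ha
    · rcases h.cases b with hb | ⟨q, rfl⟩ | hb
      · rw [addW_00 h x w N' ha hb, x.pat a b hab hΓab]
      · rw [addW_0q h x w N' hw ha, hwΓ a q hΓab]
      · rw [hs', addW_out h x w N' hw hb]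
    · rcases h.cases b with hb | ⟨q, rfl⟩ | hb
      · rw [hs', addW_0q h x w N' hw hb, hwΓ b p fun h' => hΓab (hΓ _ _ h')]
      · exact absurd (hQ p q fun h' => hab (congrArg ι h')) hΓab
      · rw [hs', addW_out h x w N' hw hb]
    · rw [addW_out h x w N' hw ha]
  fix := by
    intro a b ha hb r hr
    rcases h.cases a with ha' | ⟨p, rfl⟩ | ha'
    · rcases h.cases b with hb' | ⟨q, rfl⟩ | hb'
      · rw [addW_00 h x w N' ha' hb']
        exact x.fix a b ha' hb' r hr
      · rw [(hk q a).2] at hr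
        exact absurd hr (by simp)
      · exact absurd hb hb'
    · rw [(hk p b).1] at hr
      exact absurd hr (by simp)
    · exact absurd ha ha'
  supW := by
    rw [ind_mul_eq]
    intro a b ha
    exact addW_out h x w N' hw ha b
  supM := by
    rw [ind_mul_eq]
    intro a b ha
    rw [addM_eq, x.M_out _ _ fun h' => ha (h.sub h'), zero_add]
    refine Finset.sum_eq_zero fun q _ => ?_
    rw [Finset.sum_eq_zero fun p _ => by rw [nu_out h x w ha, zero_mul], zero_mul]
  mul := by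
    rw [ind_split h]
    refine add_mul_add x.mul x.msym (M_inc h x) (W_inc h x) (incT_inc h) (wT_inc w hw h) ?_ hN
    rw [ind_mul_eq]
    exact fun a q ha => hw a q ha
  zer := hZ

end up

/-! ### The smaller matrices -/

section down

variable (x : PtW Γ U Z T k) (N' : Matrix Q Q T)

/-- the block of the inverse -/
def blk (ι : Q → Ω) (A : Matrix Ω Ω T) : Matrix Q Q T := Matrix.of fun p q => A (ι p) (ι q)

/-- the columns `ι q` of `W`, outside of the rows `ι p` -/
noncomputable def col (U0 : Finset Ω) (ι : Q → Ω) (A : Matrix Ω Ω T) : Matrix Ω Q T :=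
  Matrix.of fun a q => if a ∈ U0 then A a (ι q) else 0

/-- the submatrix on `U0` -/
noncomputable def res (U0 : Finset Ω) (A : Matrix Ω Ω T) : Matrix Ω Ω T :=
  Matrix.of fun a b => if a ∈ U0 ∧ b ∈ U0 then A a b else 0

/-- the inverse of the submatrix -/
noncomputable def subM (ι : Q → Ω) (M : Matrix Ω Ω T) (N' : Matrix Q Q T) : Matrix Ω Ω T :=
  M - M * inc T ι * N' * ((inc T ι)ᵀ * M)

lemma subM_apply (M : Matrix Ω Ω T) (a b : Ω) : subM ι M N' a b =
    M a b - ∑ q, (∑ p, M a (ι p) * N' p q) * M (ι q) b := by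
  rw [subM, Matrix.sub_apply, Matrix.mul_apply]
  congr 1
  refine Finset.sum_congr rfl fun q _ => ?_
  rw [incT_mul, Matrix.mul_apply]
  congr 1
  refine Finset.sum_congr rfl fun p _ => ?_
  rw [mul_inc]

variable (h : Cut U U0 ι)

include h

lemma res_eq : res U0 x.W = x.W - col U0 ι x.W * (inc T ι)ᵀ - inc T ι * (col U0 ι x.W)ᵀ -
    inc T ι * blk ι x.W * (inc T ι)ᵀ := by
  ext a b
  rw [Matrix.sub_apply, Matrix.sub_apply, Matrix.sub_apply, res, Matrix.of_apply]
  rcases h.cases a with ha | ⟨p, rfl⟩ | ha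
  · rw [inc_mul_out h _ _ (Or.inr ha), Matrix.mul_assoc, inc_mul_out h _ _ (Or.inr ha)]
    rcases h.cases b with hb | ⟨q, rfl⟩ | hb
    · rw [mul_incT_out h _ _ (Or.inr hb), if_pos ⟨ha, hb⟩]
      simp only [sub_zero]
    · rw [mul_incT_self h, if_neg fun h' => h.notMem q h'.2, col, Matrix.of_apply, if_pos ha]
      simp only [sub_zero, sub_self]
    · rw [mul_incT_out h _ _ (Or.inl hb), if_neg fun h' => hb (h.sub h'.2), x.W_symm,
        x.W_out _ _ hb]
      simp only [sub_zero]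
  · rw [if_neg fun h' => h.notMem p h'.1, inc_mul_self h, Matrix.transpose_apply,
      Matrix.mul_assoc, inc_mul_self h]
    rcases h.cases b with hb | ⟨q, rfl⟩ | hb
    · rw [mul_incT_out h _ _ (Or.inr hb), mul_incT_out h _ _ (Or.inr hb), col, Matrix.of_apply,
        if_pos hb, x.W_symm]
      simp only [sub_zero, sub_self]
    · rw [mul_incT_self h, mul_incT_self h, col, Matrix.of_apply, Matrix.of_apply,
        if_neg (h.notMem p), if_neg (h.notMem q), blk, Matrix.of_apply]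
      simp only [sub_zero, sub_self]
    · rw [mul_incT_out h _ _ (Or.inl hb), mul_incT_out h _ _ (Or.inl hb), col, Matrix.of_apply,
        if_neg fun h' => hb (h.sub h'), x.W_symm, x.W_out _ _ hb]
      simp only [sub_zero]
  · rw [if_neg fun h' => ha (h.sub h'.1), inc_mul_out h _ _ (Or.inl ha), Matrix.mul_assoc (inc T ι),
      inc_mul_out h _ _ (Or.inl ha), x.W_out _ _ ha, Matrix.mul_apply,
      Finset.sum_eq_zero fun q _ => by
        rw [col, Matrix.of_apply, if_neg fun h' => ha (h.sub h'), zero_mul]]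
    simp only [sub_zero]

lemma W_mul_inc : x.W * inc T ι = col U0 ι x.W + inc T ι * blk ι x.W := by
  ext a q
  rw [mul_inc, Matrix.add_apply, col, Matrix.of_apply]
  rcases h.cases a with ha | ⟨p, rfl⟩ | ha
  · rw [if_pos ha, inc_mul_out h _ _ (Or.inr ha), add_zero]
  · rw [if_neg (h.notMem p), inc_mul_self h, zero_add]
    rfl
  · rw [if_neg fun h' => ha (h.sub h'), inc_mul_out h _ _ (Or.inl ha), x.W_out _ _ ha, add_zero]

lemma colT_inc : (col U0 ι x.W)ᵀ * inc T ι = 0 := by
  ext p q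
  rw [mul_inc, Matrix.transpose_apply, col, Matrix.of_apply, if_neg (h.notMem q)]
  rfl

variable (hNN : blk ι x.M * N' = 1) (hN' : N'ᵀ = N')

include hNN hN'

lemma down_all : res U0 x.W * subM ι x.M N' = ind T U0 ∧ (inc T ι)ᵀ * subM ι x.M N' = 0 ∧
    subM ι x.M N' * col U0 ι x.W = inc T ι - x.M * inc T ι * N' ∧
    N' + (col U0 ι x.W)ᵀ * (subM ι x.M N' * col U0 ι x.W) = blk ι x.W := by
  have h1 := elim_mul x.mul x.sym x.msym (ind_transpose U) (ind_inc h) (incT_inc h)
    (colT_inc x h) (W_mul_inc x h) (N := blk ι x.M) (by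
      ext p q
      rw [incT_mul, mul_inc]
      rfl) hNN hN'
  have h2 : ind T U - inc T ι * (inc T ι)ᵀ = ind T U0 := by
    rw [ind_split h, add_sub_cancel_right]
  rw [← res_eq x h, h2] at h1
  exact h1

/-- the smaller matrix -/
noncomputable def downPt (hZ : ∀ a b, Z0 a b → subM ι x.M N' a b = 0) : PtW Γ U0 Z0 T k where
  W := res U0 x.W
  M := subM ι x.M N'
  sym := by
    ext a b
    rw [Matrix.transpose_apply, res, Matrix.of_apply, Matrix.of_apply, x.W_symm]
    by_cases h' : a ∈ U0 ∧ b ∈ U0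
    · rw [if_pos h', if_pos ⟨h'.2, h'.1⟩]
    · rw [if_neg h', if_neg fun h'' => h' ⟨h''.2, h''.1⟩]
  pat := fun a b hab hΓ => by
    rw [res, Matrix.of_apply, x.pat a b hab hΓ, ite_self]
  fix := fun a b ha hb r hr => by
    rw [res, Matrix.of_apply, if_pos ⟨ha, hb⟩]
    exact x.fix a b (h.sub ha) (h.sub hb) r hr
  supW := by
    rw [ind_mul_eq]
    intro a b ha
    rw [res, Matrix.of_apply, if_neg fun h' => ha h'.1]
  supM := by
    rw [ind_mul_eq]
    intro a b ha
    rcases h.cases a with ha' | ⟨p, rfl⟩ | ha'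
    · exact absurd ha' ha
    · have h1 := congrFun (congrFun (down_all x N' h hNN hN').2.1 p) b
      rw [incT_mul] at h1
      exact h1
    · rw [subM_apply, x.M_out _ _ ha', Finset.sum_eq_zero, sub_zero]
      intro q _
      rw [Finset.sum_eq_zero fun p _ => by rw [x.M_out _ _ ha', zero_mul], zero_mul]
  mul := (down_all x N' h hNN hN').1
  zer := hZ

end down

end Pool.Agent.H26.GF
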