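import Pool.Agent.H26.GF.Fw

/-!
# Vectors with linear conditions
-/

set_option autoImplicit false
set_option linter.all false

open Matrix Pool.Agent.H21.GH Pool.Agent.Y116.UV Pool.Agent.Z125.UN
open scoped Classical

namespace Pool.Agent.H26.GF

variable {R : Type} [CommRing R] {Ω : Type} [Fintype Ω]

/-- A morphism of functors. -/
structure Mor (F F' : Fn R) where
  f : ∀ (T : Type) [CommRing T] [Algebra R T], F.pt T → F'.pt T
  nat : ∀ {T T' : Type} [CommRing T] [Algebra R T] [CommRing T'] [Algebra R T']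
    (g : T →ₐ[R] T') (x : F.pt T), f T' (F.mp g x) = F'.mp g (f T x)

def idMor (F : Fn R) : Mor F F where
  f _ _ _ x := x
  nat _ _ := rfl

variable {Γ : Ω → Ω → Prop} {U : Finset Ω} {Z : Ω → Ω → Prop} {E : Fn R} {k : Ω → Ω → Option R}

/-- an entry of the product of the inverse matrix and the vector -/
def frmF (p : Mor E (FW R k Γ U Z)) (A : Ω → Prop) (j : Ω) : Fun (prd E (lin R Ω A)) where
  f T _ _ x := ((p.f T x.1).M *ᵥ x.2.1) j
  nat {T T'} _ _ _ _ g x := by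
    change ((p.f T' (E.mp g x.1)).M *ᵥ fun a => g (x.2.1 a)) j = _
    rw [p.nat]
    change ∑ a, g ((p.f T x.1).M j a) * g (x.2.1 a) = g (∑ a, (p.f T x.1).M j a * x.2.1 a)
    rw [map_sum]
    simp only [map_mul]

/-- The vectors `v` with support in `A` and `(M v)_j = 0` for `j ∈ J`. -/
abbrev frm (p : Mor E (FW R k Γ U Z)) (A : Ω → Prop) (J : Finset Ω) : Fn R :=
  van (prd E (lin R Ω A)) fun j : J => frmF p A j

lemma ind_mulVec {T : Type} [CommRing T] (U : Finset Ω) (v : Ω → T) (a : Ω) :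
    (ind T U *ᵥ v) a = if a ∈ U then v a else 0 := by
  rw [ind, Matrix.mulVec_diagonal]
  split_ifs
  · rw [one_mul]
  · rw [zero_mul]

/-- the coefficients -/
noncomputable def cut (J : Finset Ω) {T : Type} [CommRing T] (M : Matrix Ω Ω T) (v : Ω → T) :
    Ω → T := fun j => if j ∈ J then (M *ᵥ v) j else 0

lemma cut_mem {J : Finset Ω} {T : Type} [CommRing T] {M : Matrix Ω Ω T} {v : Ω → T} {j : Ω}
    (h : j ∈ J) : cut J M v j = (M *ᵥ v) j := if_pos h

lemma cut_notMem {J : Finset Ω} {T : Type} [CommRing T] {M : Matrix Ω Ω T} {v : Ω → T} {j : Ω}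
    (h : j ∉ J) : cut J M v j = 0 := if_neg h

lemma MWs {T : Type} [CommRing T] {k : Ω → Ω → Option T} (x : PtW Γ U Z T k) (s : Ω → T) (hs : ∀ a, a ∉ U → s a = 0) :
    x.M *ᵥ (x.W *ᵥ s) = s := by
  rw [Matrix.mulVec_mulVec, x.mul']
  funext a
  rw [ind_mulVec]
  split_ifs with h
  · rfl
  · exact (hs a h).symm

section

variable {A : Ω → Prop} {J : Finset Ω} (hJ : J ⊆ U)
  (hA : ∀ j ∈ J, ∀ a ∈ U, (a = j ∨ Γ a j) → A a)

include hA

lemma Ws_out {T : Type} [CommRing T] {k : Ω → Ω → Option T} (x : PtW Γ U Z T k) (s : Ω → T) (hs : ∀ a, a ∉ J → s a = 0)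
    (a : Ω) (ha : ¬ A a) : (x.W *ᵥ s) a = 0 := by
  change ∑ j, x.W a j * s j = 0
  refine Finset.sum_eq_zero fun j _ => ?_
  by_cases hj : j ∈ J
  · by_cases haU : a ∈ U
    · have h1 : ¬ (a = j ∨ Γ a j) := fun h => ha (hA j hj a haU h)
      push Not at h1
      rw [x.pat a j h1.1 h1.2, zero_mul]
    · rw [x.W_out a j haU, zero_mul]
  · rw [hs j hj, mul_zero]

include hJ

noncomputable def frmIso (p : Mor E (FW R k Γ U Z)) :
    Iso (prd (frm p A J) (lin R Ω fun a => a ∈ J)) (prd E (lin R Ω A)) where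
  fwd T _ _ x := (x.1.1.1, ⟨x.1.1.2.1 + (p.f T x.1.1.1).W *ᵥ x.2.1, fun a ha => by
    rw [Pi.add_apply, x.1.1.2.2 a ha, Ws_out hA _ x.2.1 x.2.2 a ha, add_zero]⟩)
  bwd T _ _ x := (⟨(x.1, ⟨x.2.1 - (p.f T x.1).W *ᵥ cut J (p.f T x.1).M x.2.1, fun a ha => by
      rw [Pi.sub_apply, x.2.2 a ha, Ws_out hA _ _ (fun a h => cut_notMem h) a ha, sub_zero]⟩),
      fun j => by
        change ((p.f T x.1).M *ᵥ (x.2.1 - (p.f T x.1).W *ᵥ cut J (p.f T x.1).M x.2.1)) j = 0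
        rw [Matrix.mulVec_sub, MWs _ _ fun a ha => cut_notMem fun h => ha (hJ h), Pi.sub_apply,
          cut_mem j.2, sub_self]⟩,
    ⟨cut J (p.f T x.1).M x.2.1, fun a ha => cut_notMem ha⟩)
  bf T _ _ x := by
    obtain ⟨⟨⟨e, v⟩, hv⟩, s⟩ := x
    have hc : cut J (p.f T e).M (v.1 + (p.f T e).W *ᵥ s.1) = s.1 := by
      funext j
      by_cases hj : j ∈ J
      · rw [cut_mem hj, Matrix.mulVec_add, MWs _ _ fun a ha => s.2 a fun h => ha (hJ h),
          Pi.add_apply]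
        have h1 : ((p.f T e).M *ᵥ v.1) j = 0 := hv ⟨j, hj⟩
        rw [h1, zero_add]
      · rw [cut_notMem hj]
        exact (s.2 j hj).symm
    refine Prod.ext (Subtype.ext (Prod.ext rfl (Subtype.ext ?_))) (Subtype.ext hc)
    change v.1 + (p.f T e).W *ᵥ s.1 - (p.f T e).W *ᵥ
      cut J (p.f T e).M (v.1 + (p.f T e).W *ᵥ s.1) = v.1
    rw [hc, add_sub_cancel_right]
  fb T _ _ x := by
    refine Prod.ext rfl (Subtype.ext ?_)
    change x.2.1 - (p.f T x.1).W *ᵥ cut J (p.f T x.1).M x.2.1 +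
      (p.f T x.1).W *ᵥ cut J (p.f T x.1).M x.2.1 = x.2.1
    rw [sub_add_cancel]
  nat {T T'} _ _ _ _ g x := by
    refine Prod.ext rfl (Subtype.ext ?_)
    funext a
    change g (x.1.1.2.1 a) + ((p.f T' (E.mp g x.1.1.1)).W *ᵥ fun a => g (x.2.1 a)) a =
      g (x.1.1.2.1 a + ((p.f T x.1.1.1).W *ᵥ x.2.1) a)
    rw [p.nat, map_add]
    congr 1
    change ∑ j, g ((p.f T x.1.1.1).W a j) * g (x.2.1 j) =
      g (∑ j, (p.f T x.1.1.1).W a j * x.2.1 j)
    rw [map_sum]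
    simp only [map_mul]

end

variable {sep : Prop} {P : Sch R → Prop}

theorem isAff_frm (hE : IsAff E) (p : Mor E (FW R k Γ U Z)) (A : Ω → Prop) (J : Finset Ω) :
    IsAff (frm p A J) :=
  (aff_lin hE Ω A).van _

theorem hold_frm (hP : Bnd sep P) (hE : IsAff E) (h : Hold P E) (p : Mor E (FW R k Γ U Z))
    {A : Ω → Prop} {J : Finset Ω} (hJ : J ⊆ U)
    (hA : ∀ j ∈ J, ∀ a ∈ U, (a = j ∨ Γ a j) → A a) : Hold P (frm p A J) :=
  hold_unlin hP Ω (fun a => a ∈ J) ((hold_lin hP hE h Ω A).iso (frmIso hJ hA p).symm)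

end Pool.Agent.H26.GF
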