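import Pool.Agent.H26.GF.Unt
import Pool.Agent.H21.GH.Gad

/-!
# Bilinear systems with parameters from orthogonality relations with prescribed entries
-/

set_option autoImplicit false
set_option linter.all false

open Matrix Pool.Agent.H21.GH
open scoped Classical

namespace Pool.Agent.H26.GF

variable {R : Type} [CommRing R] {n : ℕ}

/-- The weights of the book with `n` pages: the vertices `inl none`, `inl (some k)` and `inr none`,
`inr (some k)`. The weights are `- κ`. -/
def kp (t : Fin n → R) : Option (Fin n) → Option (Fin n) → Option R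
  | _, none => some (-1)
  | none, some k => some (- t k)
  | some l, some k => if l = k then some (-1) else none

section gad

variable {a b c : ℕ} (E : Fin c → Fin a → Fin b → Prop) (ι : Option (Fin n) → Fin a)
  (hι : Function.Injective ι) (t : Fin n → R)

/-- the supports -/
def NA : Co a b → Ve a b c ⊕ Fin n → Prop
  | s, Sum.inl v => PA E s v
  | s, Sum.inr k => s = cx (ι none) ∨ s = cx (ι (some k))

/-- the invertible entries -/
def NE : Co a b → Ve a b c ⊕ Fin n → Prop
  | s, Sum.inl v => PE s v ∧ ¬ ((∃ z, s = cx (ι z)) ∧ v = Ve.om)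
  | s, Sum.inr k => False

/-- the orthogonality relations -/
def NS : Ve a b c ⊕ Fin n → Ve a b c ⊕ Fin n → Prop
  | Sum.inl v, Sum.inl w => PS E w v
  | Sum.inr _, Sum.inl w => w = Ve.xi
  | _, _ => False

/-- the groups -/
def ng : Ve a b c ⊕ Fin n → Bool
  | Sum.inl v => !Ve.sg v
  | Sum.inr _ => false

lemma NS_ng (v w : Ve a b c ⊕ Fin n) (h : NS E v w) : ng v = false ∧ ng w = true := by
  rcases v with v | k <;> rcases w with w | l
  · have h1 := PS_sg E w v h
    change (!Ve.sg v) = false ∧ (!Ve.sg w) = true
    rw [h1.1, h1.2]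
    exact ⟨rfl, rfl⟩
  · exact h.elim
  · have h1 : w = Ve.xi := h
    subst h1
    exact ⟨rfl, rfl⟩
  · exact h.elim

/-- the prescribed entries -/
noncomputable def nk : Co a b → Ve a b c ⊕ Fin n → Option R
  | s, Sum.inl v => if (∃ z, s = cx (ι z)) ∧ v = Ve.om then some (-1) else none
  | s, Sum.inr k => if s = cx (ι none) then some (- t k) else
      if s = cx (ι (some k)) then some (-1) else none

/-- the columns of the book -/
def nt : Option (Fin n) → Ve a b c ⊕ Fin n
  | none => Sum.inl Ve.om
  | some k => Sum.inr k

include hι in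
lemma nemb : Emb (kp t) (nk (a := a) (b := b) (c := c) ι t) (fun z => cx (ι z)) nt where
  inl x y h := hι (by simpa using h)
  inr x y h := by
    cases x <;> cases y
    · rfl
    · exact absurd h (by simp [nt])
    · exact absurd h (by simp [nt])
    · have := Sum.inr_injective h
      rw [this]
  iff s j r := by
    rcases j with v | k
    · change (if (∃ z, s = cx (ι z)) ∧ v = Ve.om then some (-1) else none) = some r ↔ _
      constructor
      · intro h
        by_cases h1 : (∃ z, s = cx (ι z)) ∧ v = Ve.om
        · rw [if_pos h1] at h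
          obtain ⟨⟨z, hz⟩, hv⟩ := h1
          refine ⟨z, none, hz.symm, by rw [hv]; rfl, ?_⟩
          cases z <;> exact h
        · rw [if_neg h1] at h
          exact absurd h (by simp)
      · rintro ⟨x, y, h1, h2, h3⟩
        cases y with
        | none =>
          rw [if_pos ⟨⟨x, h1.symm⟩, (Sum.inl_injective h2).symm⟩]
          cases x <;> exact h3
        | some k => exact absurd h2 (by simp [nt])
    · change (if s = cx (ι none) then some (- t k) else
        if s = cx (ι (some k)) then some (-1) else none) = some r ↔ _
      constructor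
      · intro h
        by_cases h1 : s = cx (ι none)
        · rw [if_pos h1] at h
          exact ⟨none, some k, h1.symm, rfl, h⟩
        · rw [if_neg h1] at h
          by_cases h2 : s = cx (ι (some k))
          · rw [if_pos h2] at h
            refine ⟨some k, some k, h2.symm, rfl, ?_⟩
            change (if k = k then some (-1) else none) = some r
            rw [if_pos rfl]
            exact h
          · rw [if_neg h2] at h
            exact absurd h (by simp)
      · rintro ⟨x, y, h1, h2, h3⟩
        cases y with
        | none => exact absurd h2 (by simp [nt])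
        | some l =>
          have h4 : l = k := Sum.inr_injective h2
          subst h4
          cases x with
          | none =>
            rw [if_pos h1.symm]
            exact h3
          | some m =>
            change (if m = l then some (-1) else none) = some r at h3
            by_cases h5 : m = l
            · subst h5
              rw [if_pos rfl] at h3
              have h6 : ¬ s = cx (ι none) := by
                rw [← h1]
                intro h7
                have h8 : ι (some m) = ι none := by simpa using h7
                exact absurd (hι h8) (by simp)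
              rw [if_neg h6, if_pos h1.symm]
              exact h3
            · rw [if_neg h5] at h3
              exact absurd h3 (by simp)
  ex1 x := ⟨none, -1, by cases x <;> rfl⟩
  ex2 y := by
    cases y with
    | none => exact ⟨none, -1, rfl⟩
    | some k => exact ⟨none, - t k, rfl⟩

/-- the bilinear system with the linear relations `t k * x (ι none) + x (ι (some k)) = 0` -/
abbrev Bt : Fn R where
  pt T _ _ := {v : (Bs R E).pt T // ∀ k, algebraMap R T (t k) * v.1.1 (ι none) + v.1.1 (ι (some k)) = 0}
  mp g v := ⟨(Bs R E).mp g v.1, fun k => by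
    have h := congrArg g (v.2 k)
    rw [map_add, map_mul, AlgHom.commutes, map_zero] at h
    exact h⟩
  mp_id v := rfl
  mp_comp g h v := rfl

/-- the remaining parameters -/
abbrev Tr (a b c : ℕ) {n : ℕ} (ι : Option (Fin n) → Fin a) : Type :=
  {s : To a b c // ∀ z, s ≠ To.ox (ι z)}

section pts

variable {T : Type} [CommRing T] [Algebra R T]

/-- the old family -/
noncomputable def oldP (x : (Bl R (nk (b := b) (c := c) ι t) (NA E ι) (NE ι) (NS E)).pt T) :
    (Pool.Agent.H21.GH.Bl R (PA E) PE (PS E)).pt T :=
  ⟨fun s v => x.1 s (Sum.inl v), fun s v h => x.2.1 s (Sum.inl v) h, fun s v h => by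
    by_cases h1 : (∃ z, s = cx (ι z)) ∧ v = Ve.om
    · have h2 : x.1 s (Sum.inl v) = -1 := by
        refine x.2.2.2.2 s (Sum.inl v) (-1) (kT_iff.2 ⟨-1, if_pos h1, ?_⟩)
        rw [map_neg, map_one]
      change IsUnit (x.1 s (Sum.inl v))
      rw [h2]
      exact isUnit_one.neg
    · exact x.2.2.1 s (Sum.inl v) ⟨h, h1⟩,
    fun v w h => by
      refine Eq.trans ?_ (x.2.2.2.1 (Sum.inl w) (Sum.inl v) h)
      exact Finset.sum_congr rfl fun s _ => mul_comm _ _⟩

lemma oldP_om (x : (Bl R (nk (b := b) (c := c) ι t) (NA E ι) (NE ι) (NS E)).pt T)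
    (z : Option (Fin n)) : x.1 (cx (ι z)) (Sum.inl Ve.om) = -1 := by
  refine x.2.2.2.2 _ _ (-1) (kT_iff.2 ⟨-1, if_pos ⟨⟨z, rfl⟩, rfl⟩, ?_⟩)
  rw [map_neg, map_one]

/-- the entries of the new vectors -/
noncomputable def ff (ι : Option (Fin n) → Fin a) (t : Fin n → R) (T : Type) [CommRing T]
    [Algebra R T] (s : Co a b) (k : Fin n) : T :=
  if s = cx (ι none) then - algebraMap R T (t k) else if s = cx (ι (some k)) then -1 else 0

lemma ff_eq (x : (Bl R (nk (b := b) (c := c) ι t) (NA E ι) (NE ι) (NS E)).pt T) (s : Co a b)
    (k : Fin n) : x.1 s (Sum.inr k) = ff ι t T s k := by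
  unfold ff
  split_ifs with h1 h2
  · refine x.2.2.2.2 _ _ _ (kT_iff.2 ⟨- t k, if_pos h1, ?_⟩)
    rw [map_neg]
  · refine x.2.2.2.2 _ _ _ (kT_iff.2 ⟨-1, ?_, ?_⟩)
    · change (if s = cx (ι none) then some (- t k) else
        if s = cx (ι (some k)) then some (-1) else none) = _
      rw [if_neg h1, if_pos h2]
    · rw [map_neg, map_one]
  · exact x.2.1 s (Sum.inr k) fun h => h.elim h1 h2

include hι in
lemma ff_sum (y : Co a b → T) (k : Fin n) : ∑ s, ff ι t T s k * y s =
    - algebraMap R T (t k) * y (cx (ι none)) + -1 * y (cx (ι (some k))) := by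
  have h0 : (cx (ι none) : Co a b) ≠ cx (ι (some k)) := by
    intro h
    have h8 : ι none = ι (some k) := by simpa using h
    exact absurd (hι h8) (by simp)
  have h1 : ff ι t T (cx (ι none) : Co a b) k = - algebraMap R T (t k) := if_pos rfl
  have h2 : ff ι t T (cx (ι (some k)) : Co a b) k = -1 := by
    unfold ff
    rw [if_neg h0.symm, if_pos rfl]
  rw [← h1, ← h2]
  refine Fintype.sum_eq_add _ _ h0 ?_
  rintro s ⟨h3, h4⟩
  have h5 : ff ι t T s k = 0 := by
    unfold ff
    rw [if_neg h3, if_neg h4]
  rw [h5, zero_mul]

end pts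

include hι in
/-- The families of vectors are the solutions of the bilinear system and parameters. -/
noncomputable def gadIsoN : Iso (Bl R (nk (b := b) (c := c) ι t) (NA E ι) (NE ι) (NS E))
    (prd (Bt E ι t) (gm R (Tr a b c ι))) where
  fwd T _ _ x := (⟨((gadIso E).fwd T (oldP E ι t x)).1, fun k => by
      have h1 := x.2.2.2.1 (Sum.inr k) (Sum.inl Ve.xi) rfl
      simp only [ff_eq] at h1
      rw [ff_sum (n := n) ι hι t] at h1
      have h2 := oldP_om E ι t x none
      have h3 := oldP_om E ι t x (some k)
      change algebraMap R T (t k) * (x.1 (cx (ι none)) (Sum.inl Ve.xi) *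
        x.1 (cx (ι none)) (Sum.inl Ve.om)) + x.1 (cx (ι (some k))) (Sum.inl Ve.xi) *
        x.1 (cx (ι (some k))) (Sum.inl Ve.om) = 0
      rw [h2, h3]
      linear_combination h1⟩, fun s => ((gadIso E).fwd T (oldP E ι t x)).2 s.1)
  bwd T _ _ v := by
    let u : To a b c → Tˣ := fun s => if h : ∀ z, s ≠ To.ox (ι z) then v.2 ⟨s, h⟩ else -1
    let y : (Pool.Agent.H21.GH.Bl R (PA E) PE (PS E)).pt T := (gadIso E).bwd T (v.1.1, u)
    have hu : ∀ z, u (To.ox (ι z)) = -1 := fun z => dif_neg fun h => h z rfl
    have hy : ∀ z, y.1 (cx (ι z)) Ve.om = -1 := by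
      intro z
      change ((u (To.ox (ι z)) : Tˣ) : T) = -1
      rw [hu]
      rfl
    have hyx : ∀ z, y.1 (cx (ι z)) Ve.xi = - v.1.1.1.1 (ι z) := by
      intro z
      change v.1.1.1.1 (ι z) * ↑(u (To.ox (ι z)))⁻¹ = _
      rw [hu, inv_neg, inv_one]
      simp
    refine ⟨fun s j => Sum.elim (fun w => y.1 s w) (fun k => ff ι t T s k) j, ?_, ?_, ?_, ?_⟩
    · rintro s (w | k) h
      · exact y.2.1 s w h
      · change ff ι t T s k = 0
        unfold ff
        rw [if_neg fun h' => h (Or.inl h'), if_neg fun h' => h (Or.inr h')]
    · rintro s (w | k) h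
      · exact y.2.2.1 s w h.1
      · exact h.elim
    · rintro (w | k) (w' | k') h
      · refine Eq.trans ?_ (y.2.2.2 w' w h)
        exact Finset.sum_congr rfl fun s _ => mul_comm _ _
      · exact h.elim
      · have h1 : w' = Ve.xi := h
        subst h1
        change ∑ s, ff ι t T s k * y.1 s Ve.xi = 0
        rw [ff_sum (n := n) ι hι t, hyx, hyx]
        linear_combination v.1.2 k
      · exact h.elim
    · rintro s (w | k) r h
      · obtain ⟨r', h1, h2⟩ := kT_iff.1 h
        change (if (∃ z, s = cx (ι z)) ∧ w = Ve.om then some (-1) else none) = some r' at h1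
        by_cases h3 : (∃ z, s = cx (ι z)) ∧ w = Ve.om
        · rw [if_pos h3] at h1
          obtain ⟨⟨z, rfl⟩, rfl⟩ := h3
          change y.1 (cx (ι z)) Ve.om = r
          rw [hy, ← h2, ← Option.some_injective _ h1, map_neg, map_one]
        · rw [if_neg h3] at h1
          exact absurd h1 (by simp)
      · obtain ⟨r', h1, h2⟩ := kT_iff.1 h
        change (if s = cx (ι none) then some (- t k) else
          if s = cx (ι (some k)) then some (-1) else none) = some r' at h1
        change ff ι t T s k = r
        unfold ff
        split_ifs with h3 h4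
        · rw [if_pos h3] at h1
          rw [← h2, ← Option.some_injective _ h1, map_neg]
        · rw [if_neg h3, if_pos h4] at h1
          rw [← h2, ← Option.some_injective _ h1, map_neg, map_one]
        · rw [if_neg h3, if_neg h4] at h1
          exact absurd h1 (by simp)
  bf T _ _ x := by
    refine Subtype.ext (funext fun s => funext fun j => ?_)
    rcases j with w | k
    · have h1 := congrArg Subtype.val ((gadIso E).bf T (oldP E ι t x))
      have h2 : (fun s : To a b c => if h : ∀ z, s ≠ To.ox (ι z) then
          (fun s : Tr a b c ι => ((gadIso E).fwd T (oldP E ι t x)).2 s.1) ⟨s, h⟩ else -1) =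
          ((gadIso E).fwd T (oldP E ι t x)).2 := by
        funext s
        by_cases h : ∀ z, s ≠ To.ox (ι z)
        · rw [dif_pos h]
        · rw [dif_neg h]
          push Not at h
          obtain ⟨z, rfl⟩ := h
          apply Units.ext
          exact (oldP_om E ι t x z).symm
      change ((gadIso E).bwd T (((gadIso E).fwd T (oldP E ι t x)).1, _)).1 s w = _
      rw [h2]
      exact congrFun (congrFun h1 s) w
    · exact (ff_eq E ι t x s k).symm
  fb T _ _ v := by
    have h1 := (gadIso E).fb T (v.1.1, fun s => if h : ∀ z, s ≠ To.ox (ι z) then v.2 ⟨s, h⟩ else -1)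
    refine Prod.ext (Subtype.ext ?_) (funext fun s => ?_)
    · exact congrArg Prod.fst h1
    · have h2 := congrFun (congrArg Prod.snd h1) s.1
      refine h2.trans ?_
      change (if h : ∀ z, s.1 ≠ To.ox (ι z) then v.2 ⟨s.1, h⟩ else -1) = v.2 s
      rw [dif_pos s.2]
  nat {T T'} _ _ _ _ g x := by
    have h1 := (gadIso E).nat g (oldP E ι t x)
    refine Prod.ext (Subtype.ext ?_) (funext fun s => ?_)
    · exact congrArg Prod.fst h1
    · exact congrFun (congrArg Prod.snd h1) s.1

include hι in
open Pool.Agent.Y116.UV Pool.Agent.Z125.UN in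
theorem hold_Bt {sep : Prop} {P : Sch R → Prop} (hP : Bnd sep P) (hone : Hold P (one R))
    (hH : GHyp P (kp t)) : Hold P (Bt (R := R) E ι t) := by
  have := Fintype.ofFinite (Ve a b c)
  exact hold_ungm hP.toUni (Tr a b c ι)
    ((hold_bl hP hone hH (nemb (b := b) (c := c) ι hι t) (NA E ι) (NE ι) (NS E) ng (NS_ng E)
      (fun y => by cases y <;> rfl) (fun x y r h => by
        cases y with
        | none => exact ⟨by cases x <;> trivial, fun h' => h'.2 ⟨⟨x, rfl⟩, rfl⟩⟩
        | some k =>
          refine ⟨?_, fun h' => h'⟩
          cases x with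
          | none => exact Or.inl rfl
          | some l =>
            change (if l = k then some (-1) else none) = some r at h
            by_cases h1 : l = k
            · subst h1
              exact Or.inr rfl
            · rw [if_neg h1] at h
              exact absurd h (by simp))).iso (gadIsoN E ι hι t))

end gad

end Pool.Agent.H26.GF
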