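import Pool.Agent.H26.GF.Gad
import Pool.Agent.H21.GH.Univ

/-!
# Graph hypersurfaces with parameters decide every property of schemes that is closed under
closed-open decompositions and affine bundles
-/

set_option autoImplicit false
set_option linter.all false

open CategoryTheory AlgebraicGeometry MvPolynomial Pool.Agent.H21.GH Pool.Agent.Y116.UV
  Pool.Agent.Z125.UN Pool.Agent.Q282.UK Pool.Agent.Q193.LT
open scoped Classical

namespace Pool.Agent.H26.GF

variable {R : Type} [CommRing R] {n : ℕ}

/-! ### Arbitrary finite index sets -/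

section gen

/-- the bilinear system with the sets `E l` of pairs, and the linear relations -/
abbrev Gt {X Y L : Type} [Fintype X] [Fintype Y] (E : L → X → Y → Prop) (ι : Option (Fin n) → X)
    (t : Fin n → R) : Fn R where
  pt T _ _ := {v : (X → T) × (Y → T) //
    (∀ l, ∑ p : X × Y, (if E l p.1 p.2 then v.1 p.1 * v.2 p.2 else 0) = 0) ∧
    ∀ k, algebraMap R T (t k) * v.1 (ι none) + v.1 (ι (some k)) = 0}
  mp g v := ⟨(fun i => g (v.1.1 i), fun j => g (v.1.2 j)), fun l => by
    have h := congrArg g (v.2.1 l)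
    rw [map_sum, map_zero] at h
    refine Eq.trans (Finset.sum_congr rfl fun p _ => ?_) h
    split_ifs
    · rw [map_mul]
    · rw [map_zero], fun k => by
    have h := congrArg g (v.2.2 k)
    rw [map_add, map_mul, AlgHom.commutes, map_zero] at h
    exact h⟩
  mp_id v := rfl
  mp_comp g h v := rfl

variable {X Y L : Type} [Fintype X] [Fintype Y] (E : L → X → Y → Prop) (ι : Option (Fin n) → X)
    (t : Fin n → R)

/-- renaming -/
noncomputable def gtIso {a b c : ℕ} (eX : X ≃ Fin a) (eY : Y ≃ Fin b) (eL : L ≃ Fin c) :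
    Iso (Bt (fun l i j => E (eL.symm l) (eX.symm i) (eY.symm j)) (fun z => eX (ι z)) t)
      (Gt E ι t) where
  fwd T _ _ v := ⟨(fun i => v.1.1.1 (eX i), fun j => v.1.1.2 (eY j)), fun l => by
    have h := v.1.2 (eL l)
    rw [← Equiv.sum_comp (eX.prodCongr eY)] at h
    refine Eq.trans (Finset.sum_congr rfl fun p _ => ?_) h
    change (if E l p.1 p.2 then _ else 0) = if E (eL.symm (eL l)) (eX.symm (eX p.1))
      (eY.symm (eY p.2)) then _ else 0
    rw [eL.symm_apply_apply, eX.symm_apply_apply, eY.symm_apply_apply]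
    rfl, fun k => v.2 k⟩
  bwd T _ _ v := ⟨⟨(fun i => v.1.1 (eX.symm i), fun j => v.1.2 (eY.symm j)), fun l => by
    have h := v.2.1 (eL.symm l)
    rw [← Equiv.sum_comp (eX.symm.prodCongr eY.symm)] at h
    exact h⟩, fun k => by
    have h := v.2.2 k
    change algebraMap R T (t k) * v.1.1 (eX.symm (eX (ι none))) +
      v.1.1 (eX.symm (eX (ι (some k)))) = 0
    rw [eX.symm_apply_apply, eX.symm_apply_apply]
    exact h⟩
  bf T _ _ v := by
    refine Subtype.ext (Subtype.ext (Prod.ext (funext fun i => ?_) (funext fun j => ?_)))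
    · change v.1.1.1 (eX (eX.symm i)) = _
      rw [eX.apply_symm_apply]
    · change v.1.1.2 (eY (eY.symm j)) = _
      rw [eY.apply_symm_apply]
  fb T _ _ v := by
    refine Subtype.ext (Prod.ext (funext fun i => ?_) (funext fun j => ?_))
    · change v.1.1 (eX.symm (eX i)) = _
      rw [eX.symm_apply_apply]
    · change v.1.2 (eY.symm (eY j)) = _
      rw [eY.symm_apply_apply]
  nat g v := rfl

theorem hold_Gt {sep : Prop} {P : Sch R → Prop} (hP : Bnd sep P) (hone : Hold P (one R))
    (hH : GHyp P (kp t)) [Finite L] (hι : Function.Injective ι) : Hold P (Gt E ι t) := by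
  have := Fintype.ofFinite L
  let eX := Fintype.equivFin X
  let eY := Fintype.equivFin Y
  let eL := Fintype.equivFin L
  exact (hold_Bt (fun l i j => E (eL.symm l) (eX.symm i) (eY.symm j)) (fun z => eX (ι z))
    (eX.injective.comp hι) t hP hone hH).iso (gtIso E ι t eX eY eL)

end gen

/-! ### Bilinear systems without parameters -/

section plain

variable {X Y L : Type} [Fintype X] [Fintype Y] (E : L → X → Y → Prop)

/-- the bilinear system with the sets `E l` of pairs -/
abbrev Gs (R : Type) [CommRing R] {X Y L : Type} [Fintype X] [Fintype Y] (E : L → X → Y → Prop) :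
    Fn R where
  pt T _ _ := {v : (X → T) × (Y → T) //
    ∀ l, ∑ p : X × Y, (if E l p.1 p.2 then v.1 p.1 * v.2 p.2 else 0) = 0}
  mp g v := ⟨(fun i => g (v.1.1 i), fun j => g (v.1.2 j)), fun l => by
    have h := congrArg g (v.2 l)
    rw [map_sum, map_zero] at h
    refine Eq.trans (Finset.sum_congr rfl fun p _ => ?_) h
    split_ifs
    · rw [map_mul]
    · rw [map_zero]⟩
  mp_id v := rfl
  mp_comp g h v := rfl

lemma sum_big {X X' Y T : Type} [Fintype X] [Fintype X'] [Fintype Y] [CommRing T]
    (f : X ⊕ X' → Y → T) (h : ∀ x y, f (Sum.inr x) y = 0) :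
    ∑ p : (X ⊕ X') × Y, f p.1 p.2 = ∑ p : X × Y, f (Sum.inl p.1) p.2 := by
  rw [Fintype.sum_prod_type, Fintype.sum_sum_type, Fintype.sum_prod_type]
  rw [Finset.sum_eq_zero (s := Finset.univ) (f := fun x : X' => ∑ y, f (Sum.inr x) y)
    fun x _ => Finset.sum_eq_zero fun y _ => h x y, add_zero]

/-- the system, with further first variables which do not occur -/
def EP {X' : Type} (E : L → X → Y → Prop) (l : L) (i : X ⊕ X') (j : Y) : Prop :=
  ∃ i', i = Sum.inl i' ∧ E l i' j

lemma sum_E {X' T : Type} [Fintype X'] [CommRing T] (l : L) (x : X ⊕ X' → T) (y : Y → T) :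
    ∑ p : (X ⊕ X') × Y, (if EP E l p.1 p.2 then x p.1 * y p.2 else 0) =
      ∑ p : X × Y, (if E l p.1 p.2 then x (Sum.inl p.1) * y p.2 else 0) := by
  rw [sum_big (fun i j => if EP E l i j then x i * y j else 0)
    fun x y => if_neg (by simp [EP])]
  refine Finset.sum_congr rfl fun p _ => ?_
  have h1 : EP (X' := X') E l (Sum.inl p.1) p.2 ↔ E l p.1 p.2 := by simp [EP]
  by_cases h2 : E l p.1 p.2
  · rw [if_pos h2, if_pos (h1.2 h2)]
  · rw [if_neg h2, if_neg fun h3 => h2 (h1.1 h3)]

/-- a new variable without relations -/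
noncomputable def gsIso (t : Fin n → R) :
    Iso (Gt (EP (X' := Option (Fin n)) E) Sum.inr t) (prd (Gs R E) (lin R Unit fun _ => True)) where
  fwd T _ _ v := (⟨(fun i => v.1.1 (Sum.inl i), v.1.2), fun l =>
      (sum_E E l v.1.1 v.1.2).symm.trans (v.2.1 l)⟩,
    ⟨fun _ => v.1.1 (Sum.inr none), fun _ h => absurd trivial h⟩)
  bwd T _ _ w := ⟨(Sum.elim w.1.1.1 fun z : Option (Fin n) => z.elim (w.2.1 ()) fun k =>
      - (algebraMap R T (t k) * w.2.1 ()), w.1.1.2), fun l =>
      (sum_E E l (Sum.elim w.1.1.1 fun z : Option (Fin n) => z.elim (w.2.1 ()) fun k =>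
        - (algebraMap R T (t k) * w.2.1 ())) w.1.1.2).trans (w.1.2 l), fun k => by
      change algebraMap R T (t k) * w.2.1 () + - (algebraMap R T (t k) * w.2.1 ()) = 0
      rw [add_neg_cancel]⟩
  bf T _ _ v := by
    refine Subtype.ext (Prod.ext (funext ?_) rfl)
    rintro (i | _ | k)
    · rfl
    · rfl
    · change - (algebraMap R T (t k) * v.1.1 (Sum.inr none)) = v.1.1 (Sum.inr (some k))
      exact (eq_neg_of_add_eq_zero_right (v.2.2 k)).symm
  fb T _ _ w := rfl
  nat {T T'} _ _ _ _ g v := rfl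

theorem hold_Gs {sep : Prop} {P : Sch R → Prop} (hP : Bnd sep P) (hone : Hold P (one R))
    {t : Fin n → R} (hH : GHyp P (kp t)) [Finite L] : Hold P (Gs R E) :=
  hold_unlin hP _ _ ((hold_Gt _ _ t hP hone hH Sum.inr_injective).iso (gsIso E t))

end plain

/-! ### Bilinear systems with coefficients `0`, `1` and parameters -/

section coef

variable {a b c : ℕ}

/-- the value of a coefficient -/
def cv (t : Fin n → R) (m : Option (Option (Fin n))) : R := m.elim 0 fun z => z.elim 1 t

/-- the large system -/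
def EB (m : Fin a → Fin b → Fin c → Option (Option (Fin n))) :
    Fin c ⊕ (Fin n × Fin b) → Fin a ⊕ Option (Fin n) → Fin b ⊕ (Fin n × Fin b) → Prop
  | Sum.inl l, Sum.inl i, Sum.inl j => m i j l = some none
  | Sum.inl l, Sum.inl i, Sum.inr q => m i q.2 l = some (some q.1)
  | Sum.inl _, Sum.inr _, _ => False
  | Sum.inr _, Sum.inl _, _ => False
  | Sum.inr _, Sum.inr none, Sum.inl _ => False
  | Sum.inr q, Sum.inr none, Sum.inr q' => q' = q
  | Sum.inr q, Sum.inr (some k), Sum.inl j => k = q.1 ∧ j = q.2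
  | Sum.inr _, Sum.inr (some _), Sum.inr _ => False

/-- the system in the first variables -/
def EC (m : Fin a → Fin b → Fin c → Option (Option (Fin n))) (l : Fin c) (i : Fin a)
    (j : Fin b ⊕ (Fin n × Fin b)) : Prop := EB m (Sum.inl l) (Sum.inl i) j

variable (m : Fin a → Fin b → Fin c → Option (Option (Fin n)))

section sums

variable {T : Type} [CommRing T] (x : Fin a ⊕ Option (Fin n) → T) (y : Fin b ⊕ (Fin n × Fin b) → T)

lemma sum_inl (l : Fin c) : ∑ p : (Fin a ⊕ Option (Fin n)) × (Fin b ⊕ (Fin n × Fin b)),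
      (if EB m (Sum.inl l) p.1 p.2 then x p.1 * y p.2 else 0) =
    ∑ p : Fin a × (Fin b ⊕ (Fin n × Fin b)), (if EC m l p.1 p.2 then x (Sum.inl p.1) * y p.2 else 0) :=
  sum_big (fun i j => if EB m (Sum.inl l) i j then x i * y j else 0) fun z j => if_neg fun h => h

lemma sum_inr (q : Fin n × Fin b) : ∑ p : (Fin a ⊕ Option (Fin n)) × (Fin b ⊕ (Fin n × Fin b)),
      (if EB m (Sum.inr q) p.1 p.2 then x p.1 * y p.2 else 0) =
    x (Sum.inr none) * y (Sum.inr q) + x (Sum.inr (some q.1)) * y (Sum.inl q.2) := by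
  have h1 : EB m (Sum.inr q) (Sum.inr none) (Sum.inr q) := rfl
  have h2 : EB m (Sum.inr q) (Sum.inr (some q.1)) (Sum.inl q.2) := ⟨rfl, rfl⟩
  rw [Fintype.sum_eq_add (Sum.inr none, Sum.inr q) (Sum.inr (some q.1), Sum.inl q.2)
    (by simp)]
  · rw [if_pos h1, if_pos h2]
  · rintro ⟨i, j⟩ ⟨h3, h4⟩
    refine if_neg fun h5 => ?_
    rcases i with i | _ | k
    · exact h5
    · rcases j with j | q'
      · exact h5
      · have h6 : q' = q := h5
        subst h6
        exact h3 rfl
    · rcases j with j | q'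
      · obtain ⟨h6, h7⟩ : k = q.1 ∧ j = q.2 := h5
        subst h6
        subst h7
        exact h4 rfl
      · exact h5

lemma sum_EC (s : Fin n → T) (l : Fin c) (x : Fin a → T) (y : Fin b → T) :
    ∑ p : Fin a × (Fin b ⊕ (Fin n × Fin b)), (if EC m l p.1 p.2 then
      x p.1 * (Sum.elim y (fun q => s q.1 * y q.2) p.2 : T) else 0) =
    ∑ i, ∑ j, ((m i j l).elim 0 fun z => z.elim 1 s) * x i * y j := by
  rw [Fintype.sum_prod_type]
  refine Finset.sum_congr rfl fun i _ => ?_
  rw [Fintype.sum_sum_type, Fintype.sum_prod_type_right, ← Finset.sum_add_distrib]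
  refine Finset.sum_congr rfl fun j _ => ?_
  refine (congrArg₂ (· + ·)
    (if_congr (show EC m l i (Sum.inl j) ↔ m i j l = some none from Iff.rfl) rfl rfl)
    (Finset.sum_congr rfl fun k _ => if_congr
      (show EC m l i (Sum.inr (k, j)) ↔ m i j l = some (some k) from Iff.rfl) rfl rfl)).trans ?_
  change (if m i j l = some none then x i * y j else 0) +
    ∑ k, (if m i j l = some (some k) then x i * (s k * y j) else 0) = _
  rcases m i j l with _ | _ | k
  · simp
  · simp
  · rw [if_neg (by simp), Finset.sum_eq_single k, if_pos rfl, zero_add]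
    · change x i * (s k * y j) = s k * x i * y j
      ring
    · intro k' _ hk
      exact if_neg fun h => hk (by simpa using h.symm)
    · intro h
      exact absurd (Finset.mem_univ _) h

end sums

/-- the first parameter variable -/
def zF (t : Fin n → R) : Fun (Gt (R := R) (EB m) Sum.inr t) where
  f T _ _ v := v.1.1 (Sum.inr none)
  nat g v := rfl

/-- the closed part -/
noncomputable def cloIso (t : Fin n → R) :
    Iso (van (Gt (R := R) (EB m) Sum.inr t) fun _ : Unit => zF m t) (Gs R (EC m)) where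
  fwd T _ _ v := ⟨(fun i => v.1.1.1 (Sum.inl i), v.1.1.2), fun l =>
    (sum_inl m v.1.1.1 v.1.1.2 l).symm.trans (v.1.2.1 (Sum.inl l))⟩
  bwd T _ _ w := ⟨⟨(Sum.elim w.1.1 fun _ => 0, w.1.2), by
      rintro (l | q)
      · exact (sum_inl m (Sum.elim w.1.1 fun _ => 0) w.1.2 l).trans (w.2 l)
      · refine (sum_inr m (Sum.elim w.1.1 fun _ => 0) w.1.2 q).trans ?_
        change (0 : T) * _ + 0 * _ = 0
        ring, fun k => by
      change algebraMap R T (t k) * 0 + 0 = 0
      ring⟩, fun _ => rfl⟩
  bf T _ _ v := by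
    have h0 : v.1.1.1 (Sum.inr none) = 0 := v.2 ()
    refine Subtype.ext (Subtype.ext (Prod.ext (funext ?_) rfl))
    rintro (i | _ | k)
    · rfl
    · exact h0.symm
    · have h1 := v.1.2.2 k
      rw [h0, mul_zero, zero_add] at h1
      exact h1.symm
  fb T _ _ w := rfl
  nat {T T'} _ _ _ _ g v := rfl

/-- the open part -/
noncomputable def opIso (t : Fin n → R) (Tn : Fin a → Fin b → Fin c → R)
    (hm : ∀ i j l, Tn i j l = cv t (m i j l)) :
    Iso (inv (Gt (R := R) (EB m) Sum.inr t) (zF m t))
      (prd (van (vec R (Fin a ⊕ Fin b)) (bsF R Tn)) (uni R)) where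
  fwd T _ _ v := (⟨Sum.elim (fun i => v.1.1.1 (Sum.inl i)) (fun j => v.1.1.2 (Sum.inl j)), by
      have hu : IsUnit (v.1.1.1 (Sum.inr none)) := v.2
      have hz : ∀ k, v.1.1.1 (Sum.inr (some k)) = - (algebraMap R T (t k) *
        v.1.1.1 (Sum.inr none)) := fun k => eq_neg_of_add_eq_zero_right (v.1.2.2 k)
      have hy : ∀ q : Fin n × Fin b, v.1.1.2 (Sum.inr q) =
          algebraMap R T (t q.1) * v.1.1.2 (Sum.inl q.2) := by
        intro q
        have h1 := (sum_inr m v.1.1.1 v.1.1.2 q).symm.trans (v.1.2.1 (Sum.inr q))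
        rw [hz] at h1
        refine hu.mul_left_cancel ?_
        linear_combination h1
      intro l
      have h2 := (sum_inl m v.1.1.1 v.1.1.2 l).symm.trans (v.1.2.1 (Sum.inl l))
      have h3 : v.1.1.2 = Sum.elim (fun j => v.1.1.2 (Sum.inl j))
          fun q => algebraMap R T (t q.1) * v.1.1.2 (Sum.inl q.2) := by
        funext s
        rcases s with j | q
        · rfl
        · exact hy q
      rw [h3] at h2
      have h4 := (sum_EC m (fun k => algebraMap R T (t k)) l (fun i => v.1.1.1 (Sum.inl i))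
        fun j => v.1.1.2 (Sum.inl j)).symm.trans h2
      refine Eq.trans ?_ h4
      change ∑ i, ∑ j, algebraMap R T (Tn i j l) * v.1.1.1 (Sum.inl i) * v.1.1.2 (Sum.inl j) = _
      refine Finset.sum_congr rfl fun i _ => Finset.sum_congr rfl fun j _ => ?_
      rw [hm]
      congr 2
      rcases m i j l with _ | _ | k
      · exact map_zero _
      · exact map_one _
      · rfl⟩, v.2.unit)
  bwd T _ _ w := ⟨⟨(Sum.elim (fun i => w.1.1 (Sum.inl i)) (fun z : Option (Fin n) => z.elim (Units.val (α := T) w.2)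
        fun k => - (algebraMap R T (t k) * Units.val (α := T) w.2)),
      Sum.elim (fun j => w.1.1 (Sum.inr j)) (fun q => algebraMap R T (t q.1) * w.1.1 (Sum.inr q.2))),
      by
        rintro (l | q)
        · refine (sum_inl m _ _ l).trans ?_
          refine (sum_EC m (fun k => algebraMap R T (t k)) l (fun i => w.1.1 (Sum.inl i))
            fun j => w.1.1 (Sum.inr j)).trans ?_
          refine Eq.trans ?_ (w.1.2 l)
          change _ = ∑ i, ∑ j, algebraMap R T (Tn i j l) * w.1.1 (Sum.inl i) * w.1.1 (Sum.inr j)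
          refine Finset.sum_congr rfl fun i _ => Finset.sum_congr rfl fun j _ => ?_
          rw [hm]
          congr 2
          rcases m i j l with _ | _ | k
          · exact (map_zero _).symm
          · exact (map_one _).symm
          · rfl
        · refine (sum_inr m _ _ q).trans ?_
          change (Units.val (α := T) w.2) * (algebraMap R T (t q.1) * w.1.1 (Sum.inr q.2)) +
            - (algebraMap R T (t q.1) * Units.val (α := T) w.2) * w.1.1 (Sum.inr q.2) = 0
          ring, fun k => by
        change algebraMap R T (t k) * (Units.val (α := T) w.2) +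
          - (algebraMap R T (t k) * Units.val (α := T) w.2) = 0
        ring⟩, Units.isUnit w.2⟩
  bf T _ _ v := by
    have hu : IsUnit (v.1.1.1 (Sum.inr none)) := v.2
    have hz : ∀ k, v.1.1.1 (Sum.inr (some k)) = - (algebraMap R T (t k) *
      v.1.1.1 (Sum.inr none)) := fun k => eq_neg_of_add_eq_zero_right (v.1.2.2 k)
    have hy : ∀ q : Fin n × Fin b, v.1.1.2 (Sum.inr q) =
        algebraMap R T (t q.1) * v.1.1.2 (Sum.inl q.2) := by
      intro q
      have h1 := (sum_inr m v.1.1.1 v.1.1.2 q).symm.trans (v.1.2.1 (Sum.inr q))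
      rw [hz] at h1
      refine hu.mul_left_cancel ?_
      linear_combination h1
    refine Subtype.ext (Subtype.ext (Prod.ext (funext ?_) (funext ?_)))
    · rintro (i | _ | k)
      · rfl
      · rfl
      · exact (hz k).symm
    · rintro (j | q)
      · rfl
      · exact (hy q).symm
  fb T _ _ w := by
    refine Prod.ext (Subtype.ext (funext ?_)) (Units.ext rfl)
    rintro (i | j) <;> rfl
  nat {T T'} _ _ _ _ g v := by
    refine Prod.ext (Subtype.ext (funext ?_)) (Units.ext rfl)
    rintro (i | j) <;> rfl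

end coef

/-! ### The theorem -/

section main

variable {sep : Prop} {P : Sch R → Prop} {a b c : ℕ}

/-- the equations of the large system -/
noncomputable def gtF {X Y L : Type} [Fintype X] [Fintype Y] (E : L → X → Y → Prop)
    (ι : Option (Fin n) → X) (t : Fin n → R) (s : L ⊕ Fin n) : Fun (vec R (X ⊕ Y)) where
  f T _ _ v := Sum.elim (fun l => ∑ p : X × Y, (if E l p.1 p.2 then v (Sum.inl p.1) *
    v (Sum.inr p.2) else 0)) (fun k => algebraMap R T (t k) * v (Sum.inl (ι none)) +
    v (Sum.inl (ι (some k)))) s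
  nat {T T'} _ _ _ _ g v := by
    rcases s with l | k
    · change ∑ p : X × Y, (if E l p.1 p.2 then g (v (Sum.inl p.1)) * g (v (Sum.inr p.2)) else 0) =
        g (∑ p : X × Y, (if E l p.1 p.2 then v (Sum.inl p.1) * v (Sum.inr p.2) else 0))
      rw [map_sum]
      refine Finset.sum_congr rfl fun p _ => ?_
      split_ifs
      · rw [map_mul]
      · rw [map_zero]
    · change algebraMap R T' (t k) * g (v (Sum.inl (ι none))) + g (v (Sum.inl (ι (some k)))) =
        g (algebraMap R T (t k) * v (Sum.inl (ι none)) + v (Sum.inl (ι (some k))))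
      rw [map_add, map_mul, AlgHom.commutes]

lemma isAff_Gt {X Y L : Type} [Fintype X] [Fintype Y] (E : L → X → Y → Prop)
    (ι : Option (Fin n) → X) (t : Fin n → R) : IsAff (Gt E ι t) :=
  ((isAff_vec (X ⊕ Y)).van (gtF E ι t)).iso
    { fwd := fun T _ _ v => ⟨(fun i => v.1 (Sum.inl i), fun j => v.1 (Sum.inr j)),
        fun l => v.2 (Sum.inl l), fun k => v.2 (Sum.inr k)⟩
      bwd := fun T _ _ v => ⟨Sum.elim v.1.1 v.1.2, by
        rintro (l | k)
        · exact v.2.1 l
        · exact v.2.2 k⟩
      bf := fun T _ _ v => Subtype.ext (funext fun s => by cases s <;> rfl)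
      fb := fun T _ _ v => rfl
      nat := fun g v => rfl }

theorem p_bilT (hP : Bnd sep P) (hone : Hold P (one R)) {t : Fin n → R} (hH : GHyp P (kp t))
    (Tn : Fin a → Fin b → Fin c → R)
    (hT : ∀ i j l, Tn i j l = 0 ∨ Tn i j l = 1 ∨ ∃ k, Tn i j l = t k) : P (bilS Tn) := by
  have h1 : ∀ i j l, ∃ m : Option (Option (Fin n)), Tn i j l = cv t m := by
    intro i j l
    rcases hT i j l with h | h | ⟨k, h⟩
    · exact ⟨none, h⟩
    · exact ⟨some none, h⟩
    · exact ⟨some (some k), h⟩
  choose m hm using h1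
  have h2 : Hold P (Gt (R := R) (EB m) Sum.inr t) := hold_Gt _ _ t hP hone hH Sum.inr_injective
  have h3 : Hold P (van (Gt (R := R) (EB m) Sum.inr t) fun _ : Unit => zF m t) :=
    (hold_Gs (EC m) hP hone hH).iso (cloIso m t).symm
  have h4 := (hold_inv hP.toUni (isAff_Gt _ _ _) (zF m t) h2 h3).iso (opIso m t Tn hm)
  have h5 := hold_ununi hP.toUni h4
  exact h5 _ ((repVec R (Fin a ⊕ Fin b)).van (bsF R Tn))

end main

end Pool.Agent.H26.GF
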