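import Pool.Agent.H26.GF.Top

/-!
# Invertible entries
-/

set_option autoImplicit false
set_option linter.all false

open Matrix Pool.Agent.H21.GH Pool.Agent.Y116.UV Pool.Agent.Z125.UN
open scoped Classical

namespace Pool.Agent.H26.GF

variable {R : Type} [CommRing R] {Q J J' : Type} [Fintype Q] {k : Q → J → Option R}

/-- Renaming the vectors. -/
def blEquiv (e : J ≃ J') (κ : Q → J' → Option R) (A E : Q → J' → Prop) (S : J' → J' → Prop) :
    Iso (Bl R κ A E S) (Bl R (fun a j => κ a (e j)) (fun a j => A a (e j)) (fun a j => E a (e j))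
      fun j k => S (e j) (e k)) where
  fwd T _ _ x := ⟨fun a j => x.1 a (e j), fun a j h => x.2.1 a (e j) h,
    fun a j h => x.2.2.1 a (e j) h, fun j k h => x.2.2.2.1 (e j) (e k) h,
    fun a j r h => x.2.2.2.2 a (e j) r h⟩
  bwd T _ _ x := ⟨fun a j => x.1 a (e.symm j), fun a j h => x.2.1 a (e.symm j) (by simpa using h),
    fun a j h => x.2.2.1 a (e.symm j) (by simpa using h),
    fun j k h => x.2.2.2.1 (e.symm j) (e.symm k) (by simpa using h),
    fun a j r h => x.2.2.2.2 a (e.symm j) r (by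
      unfold kT at h ⊢
      beta_reduce
      rwa [e.apply_symm_apply])⟩
  bf T _ _ x := by
    apply Subtype.ext
    funext a j
    change x.1 a (e (e.symm j)) = x.1 a j
    rw [e.apply_symm_apply]
  fb T _ _ x := by
    apply Subtype.ext
    funext a j
    change x.1 a (e.symm (e j)) = x.1 a j
    rw [e.symm_apply_apply]
  nat g x := rfl

/-- the same conditions -/
def blCongr {A A' E E' : Q → J → Prop} {S S' : J → J → Prop} (hA : ∀ a j, A a j ↔ A' a j)
    (hE : ∀ a j, E a j ↔ E' a j) (hS : ∀ j k, S j k ↔ S' j k) :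
    Iso (Bl R k A E S) (Bl R k A' E' S') where
  fwd T _ _ x := ⟨x.1, fun a j h => x.2.1 a j fun h' => h ((hA a j).1 h'),
    fun a j h => x.2.2.1 a j ((hE a j).2 h), fun j k h => x.2.2.2.1 j k ((hS j k).2 h), x.2.2.2.2⟩
  bwd T _ _ x := ⟨x.1, fun a j h => x.2.1 a j fun h' => h ((hA a j).2 h'),
    fun a j h => x.2.2.1 a j ((hE a j).1 h), fun j k h => x.2.2.2.1 j k ((hS j k).1 h), x.2.2.2.2⟩
  bf T _ _ x := rfl
  fb T _ _ x := rfl
  nat g x := rfl

/-- the coordinate -/
def blC (A E : Q → J → Prop) (S : J → J → Prop) (a : Q) (j : J) : Fun (Bl R k A E S) where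
  f _ _ _ x := x.1 a j
  nat _ _ := rfl

/-- the coordinate is invertible -/
def blInv (A E : Q → J → Prop) (S : J → J → Prop) (a : Q) (j : J) :
    Iso (inv (Bl R k A E S) (blC A E S a j)) (Bl R k A (fun b l => (b = a ∧ l = j) ∨ E b l) S) where
  fwd T _ _ x := ⟨x.1.1, x.1.2.1, by
    rintro b l (⟨rfl, rfl⟩ | h)
    · exact x.2
    · exact x.1.2.2.1 b l h, x.1.2.2.2⟩
  bwd T _ _ x := ⟨⟨x.1, x.2.1, fun b l h => x.2.2.1 b l (Or.inr h), x.2.2.2⟩,
    x.2.2.1 a j (Or.inl ⟨rfl, rfl⟩)⟩
  bf T _ _ x := rfl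
  fb T _ _ x := rfl
  nat g x := rfl

/-- the coordinate is zero -/
def blVan (A E : Q → J → Prop) (S : J → J → Prop) (a : Q) (j : J) :
    Iso (van (Bl R k A E S) fun _ : Unit => blC A E S a j)
      (Bl R k (fun b l => A b l ∧ ¬ (b = a ∧ l = j)) E S) where
  fwd T _ _ x := ⟨x.1.1, by
    intro b l h
    by_cases h' : A b l
    · have h1 : b = a ∧ l = j := by
        by_contra h2
        exact h ⟨h', h2⟩
      obtain ⟨rfl, rfl⟩ := h1
      exact x.2 ()
    · exact x.1.2.1 b l h', x.1.2.2.1, x.1.2.2.2⟩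
  bwd T _ _ x := ⟨⟨x.1, fun b l h => x.2.1 b l fun h' => h h'.1, x.2.2.1, x.2.2.2⟩,
    fun _ => x.2.1 a j fun h => h.2 ⟨rfl, rfl⟩⟩
  bf T _ _ x := rfl
  fb T _ _ x := rfl
  nat g x := rfl

/-- the equations -/
def blF (A : Q → J → Prop) (p : J × J) : Fun (lin R (Q × J) fun s => A s.1 s.2) where
  f T _ _ x := ∑ a, x.1 (a, p.1) * x.1 (a, p.2)
  nat {T T'} _ _ _ _ g x := by
    change ∑ a, g (x.1 (a, p.1)) * g (x.1 (a, p.2)) = _
    rw [map_sum]
    simp only [map_mul]

/-- the prescribed entries -/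
def blP (k : Q → J → Option R) (A : Q → J → Prop) (p : Q × J) :
    Fun (lin R (Q × J) fun s => A s.1 s.2) where
  f T _ _ x := (kT k T p.1 p.2).elim 0 fun r => x.1 p - r
  nat {T T'} _ _ _ _ g x := by
    change ((k p.1 p.2).map (algebraMap R T')).elim 0 _ =
      g (((k p.1 p.2).map (algebraMap R T)).elim 0 _)
    cases k p.1 p.2 with
    | none => exact (map_zero g).symm
    | some r =>
      change g (x.1 p) - algebraMap R T' r = g (x.1 p - algebraMap R T r)
      rw [map_sub, AlgHom.commutes]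

def blIso (A : Q → J → Prop) (S : J → J → Prop) :
    Iso (van (lin R (Q × J) fun s => A s.1 s.2)
      fun p : {p : J × J // S p.1 p.2} ⊕ (Q × J) => Sum.elim (fun p => blF A p.1) (blP k A) p)
      (Bl R k A (fun _ _ => False) S) where
  fwd T _ _ x := ⟨fun a j => x.1.1 (a, j), fun a j h => x.1.2 (a, j) h, fun a j h => h.elim,
    fun j k h => x.2 (Sum.inl ⟨(j, k), h⟩), fun a j r h => by
      have h1 := x.2 (Sum.inr (a, j))
      change (kT k T a j).elim 0 (fun r => x.1.1 (a, j) - r) = 0 at h1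
      rw [h] at h1
      exact sub_eq_zero.1 h1⟩
  bwd T _ _ x := ⟨⟨fun s => x.1 s.1 s.2, fun s h => x.2.1 s.1 s.2 h⟩, by
    rintro (p | ⟨a, j⟩)
    · exact x.2.2.2.1 p.1.1 p.1.2 p.2
    · change (kT k T a j).elim 0 (fun r => x.1 a j - r) = 0
      cases h : kT k T a j with
      | none => rfl
      | some r => exact sub_eq_zero.2 (x.2.2.2.2 a j r h)⟩
  bf T _ _ x := rfl
  fb T _ _ x := rfl
  nat g x := rfl

lemma isAff_bl0 [Finite J] (A : Q → J → Prop) (S : J → J → Prop) :
    IsAff (Bl R k A (fun _ _ => False) S) :=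
  ((isAff_lin (Q × J) fun s => A s.1 s.2).van _).iso (blIso A S)

lemma isAff_blE [Finite J] (E : Finset (Q × J)) (A : Q → J → Prop) (S : J → J → Prop) :
    IsAff (Bl R k A (fun a j => (a, j) ∈ E) S) := by
  induction E using Finset.induction_on with
  | empty =>
    exact (isAff_bl0 A S).iso (blCongr (fun _ _ => Iff.rfl) (fun a j => by simp) fun _ _ => Iff.rfl)
  | insert s E hs ih =>
    refine ((ih.inv (blC _ _ _ s.1 s.2)).iso (blInv _ _ _ s.1 s.2)).iso
      (blCongr (fun _ _ => Iff.rfl) (fun a j => ?_) fun _ _ => Iff.rfl)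
    rw [Finset.mem_insert, Prod.ext_iff]

/-! ### A graph with weights -/

section pat

variable {B B' : Type}

/-- The graph hypersurfaces with prescribed weights `- κ x y` of the edges `β x, β y`, for an injective
map `β` of the bipartite graph with the weights `κ` to the graph. -/
def GHyp (P : Sch R → Prop) (κ : B → B' → Option R) : Prop :=
  ∀ (n : ℕ) (G : SimpleGraph (Fin n)) (β : B ⊕ B' → Fin n) (k : Fin n → Fin n → Option R),
    Function.Injective β →
    (∀ a b r, k a b = some r ↔ ∃ x y, κ x y = some r ∧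
      ((β (Sum.inl x) = a ∧ β (Sum.inr y) = b) ∨ (β (Sum.inr y) = a ∧ β (Sum.inl x) = b))) →
    (∀ x y r, κ x y = some r → G.Adj (β (Sum.inl x)) (β (Sum.inr y))) → P (kirK k G)

end pat

variable {sep : Prop} {P : Sch R → Prop}

variable {B B' : Type} {κ : B → B' → Option R}

/-- the families with prescribed entries `κ x y` at the places `ρ x, τ y` -/
structure Emb (κ : B → B' → Option R) (k : Q → J → Option R) (ρ : B → Q) (τ : B' → J) : Prop where
  inl : Function.Injective ρ
  inr : Function.Injective τ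
  iff : ∀ a j r, k a j = some r ↔ ∃ x y, ρ x = a ∧ τ y = j ∧ κ x y = some r
  ex1 : ∀ x, ∃ y r, κ x y = some r
  ex2 : ∀ y, ∃ x r, κ x y = some r

theorem hold_core (hP : Bnd sep P) (hone : Hold P (one R)) (hH : GHyp P κ) {c : ℕ}
    {k : Q → Fin c → Option R} {ρ : B → Q} {τ : B' → Fin c} (he : Emb κ k ρ τ)
    (A : Q → Fin c → Prop) (S : Fin c → Fin c → Prop)
    (hA : ∀ x y r, κ x y = some r → A (ρ x) (τ y)) (U : Finset (Q ⊕ (Fin c ⊕ Fin c)))
    (hU : ∀ a b r, kk k a b = some r → a ∈ U ∧ b ∈ U) :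
    Hold P (FW R (kk k) (TG A S) U fun _ _ => False) := by
  have hs : ∀ a b, kk k a b = kk k b a := by
    intro a b
    rcases a with a | j | j <;> rcases b with b | l | l <;> rfl
  have hiff : ∀ a b r, kk k a b = some r ↔ ∃ x y, κ x y = some r ∧
      ((e1 (ρ x) = a ∧ e2 (τ y) = b) ∨ (e2 (τ y) = a ∧ e1 (ρ x) = b)) := by
    intro a b r
    constructor
    · intro h
      rcases a with a | j | j <;> rcases b with b | l | l
      · exact absurd h (by simp [kk])
      · obtain ⟨x, y, h1, h2, h3⟩ := (he.iff a l r).1 h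
        exact ⟨x, y, h3, Or.inl ⟨by rw [h1], by rw [h2]⟩⟩
      · exact absurd h (by simp [kk])
      · obtain ⟨x, y, h1, h2, h3⟩ := (he.iff b j r).1 h
        exact ⟨x, y, h3, Or.inr ⟨by rw [h2], by rw [h1]⟩⟩
      all_goals exact absurd h (by simp [kk])
    · rintro ⟨x, y, h, ⟨rfl, rfl⟩ | ⟨rfl, rfl⟩⟩
      · exact (he.iff _ _ r).2 ⟨x, y, rfl, rfl, h⟩
      · exact (he.iff _ _ r).2 ⟨x, y, rfl, rfl, h⟩
  refine hold_base hP hone ?_ hs ?_ (TG_symm A S) U hU
  · intro n G ι hι hG hr
    have p1 : ∀ x, ∃ p, ι p = e1 (ρ x) := by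
      intro x
      obtain ⟨y, r, h⟩ := he.ex1 x
      exact (hr _ _ r ((hiff _ _ r).2 ⟨x, y, h, Or.inl ⟨rfl, rfl⟩⟩)).1
    have p2 : ∀ y, ∃ p, ι p = e2 (τ y) := by
      intro y
      obtain ⟨x, r, h⟩ := he.ex2 y
      exact (hr _ _ r ((hiff _ _ r).2 ⟨x, y, h, Or.inl ⟨rfl, rfl⟩⟩)).2
    choose b1 hb1 using p1
    choose b2 hb2 using p2
    refine hH n G (Sum.elim b1 b2) _ ?_ ?_ ?_
    · rintro (x | y) (x' | y') h
      · change b1 x = b1 x' at h
        have h1 := hb1 x
        rw [h, hb1 x'] at h1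
        rw [he.inl (Sum.inl_injective h1)]
      · change b1 x = b2 y' at h
        have h1 := hb1 x
        rw [h, hb2 y'] at h1
        exact absurd h1 (by simp)
      · change b2 y = b1 x' at h
        have h1 := hb2 y
        rw [h, hb1 x'] at h1
        exact absurd h1 (by simp)
      · change b2 y = b2 y' at h
        have h1 := hb2 y
        rw [h, hb2 y'] at h1
        have h2 : τ y' = τ y := by simpa using h1
        rw [he.inr h2]
    · intro a b r
      rw [hiff]
      refine exists_congr fun x => exists_congr fun y => and_congr_right fun _ => ?_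
      rw [← hb1 x, ← hb2 y, hι.eq_iff, hι.eq_iff, hι.eq_iff, hι.eq_iff]
      rfl
    · intro x y r h
      rw [hG]
      change b1 x ≠ b2 y ∧ TG A S (ι (b1 x)) (ι (b2 y))
      rw [hb1, hb2]
      refine ⟨fun h' => ?_, hA x y r h⟩
      have h1 := hb1 x
      rw [h', hb2 y] at h1
      exact absurd h1 (by simp)
  · intro a b r h
    obtain ⟨x, y, h1, ⟨rfl, rfl⟩ | ⟨rfl, rfl⟩⟩ := (hiff a b r).1 h
    · exact ⟨by simp, hA x y r h1⟩
    · exact ⟨by simp, hA x y r h1⟩

theorem hold_bl0 (hP : Bnd sep P) (hone : Hold P (one R)) (hH : GHyp P κ)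
    [Fintype J] {ρ : B → Q} {τ : B' → J} (he : Emb κ k ρ τ) (A : Q → J → Prop) (S : J → J → Prop)
    (σ : J → Bool) (hσ : ∀ j j', S j j' → σ j = false ∧ σ j' = true)
    (hk : ∀ y, σ (τ y) = false) (hA : ∀ x y r, κ x y = some r → A (ρ x) (τ y)) :
    Hold P (Bl R k A (fun _ _ => False) S) := by
  let e := Fintype.equivFin J
  have he' : Emb κ (fun a j => k a (e.symm j)) ρ (fun y => e (τ y)) :=
    { inl := he.inl
      inr := e.injective.comp he.inr
      iff := fun a j r => by
        rw [he.iff]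
        refine exists_congr fun x => exists_congr fun y => and_congr_right fun _ =>
          and_congr_left fun _ => ?_
        rw [Equiv.eq_symm_apply]
      ex1 := he.ex1
      ex2 := he.ex2 }
  have h1 := hold_top (k := fun a j => k a (e.symm j)) hP (fun a j => A a (e.symm j))
    (fun j k => S (e.symm j) (e.symm k)) (fun j => σ (e.symm j)) (fun j k h => hσ _ _ h)
    (fun a j r h => by
      obtain ⟨x, y, h1, h2, h3⟩ := (he.iff _ _ _).1 h
      change σ (e.symm j) = false
      rw [← h2]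
      exact hk y)
    (hold_core hP hone hH he' _ _ fun x y r h => by
      change A (ρ x) (e.symm (e (τ y)))
      rw [e.symm_apply_apply]
      exact hA x y r h)
  have h2 := h1.iso (blEquiv e _ _ _ _)
  have h3 : (fun a j => k a (e.symm (e j))) = k := by
    funext a j
    rw [e.symm_apply_apply]
  rw [h3] at h2
  refine h2.iso (blCongr ?_ ?_ ?_)
  · intro a j
    simp
  · intro a j
    rfl
  · intro j k
    simp

theorem hold_blE (hP : Bnd sep P) (hone : Hold P (one R)) (hH : GHyp P κ)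
    [Fintype J] {ρ : B → Q} {τ : B' → J} (he : Emb κ k ρ τ) (S : J → J → Prop) (σ : J → Bool)
    (hσ : ∀ j j', S j j' → σ j = false ∧ σ j' = true) (hk : ∀ y, σ (τ y) = false)
    (E : Finset (Q × J)) :
    ∀ A : Q → J → Prop, (∀ x y r, κ x y = some r → A (ρ x) (τ y) ∧ (ρ x, τ y) ∉ E) →
      Hold P (Bl R k A (fun a j => (a, j) ∈ E) S) := by
  induction E using Finset.induction_on with
  | empty =>
    intro A hA
    exact (hold_bl0 hP hone hH he A S σ hσ hk fun x y r h => (hA x y r h).1).iso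
      (blCongr (fun _ _ => Iff.rfl) (fun a j => by simp) fun _ _ => Iff.rfl)
  | insert s E hs ih =>
    intro A hA
    have hA' : ∀ x y r, κ x y = some r → A (ρ x) (τ y) ∧ (ρ x, τ y) ∉ E := fun x y r h =>
      ⟨(hA x y r h).1, fun h' => (hA x y r h).2 (Finset.mem_insert_of_mem h')⟩
    have h1 := hold_inv hP.toUni (isAff_blE E A S) (blC _ _ _ s.1 s.2) (ih A hA')
      ((ih (fun b k => A b k ∧ ¬ (b = s.1 ∧ k = s.2)) fun x y r h => ⟨⟨(hA' x y r h).1, fun h' =>
        (hA x y r h).2 (Finset.mem_insert.2 (Or.inl (Prod.ext h'.1 h'.2)))⟩, (hA' x y r h).2⟩).iso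
        (blVan _ _ _ s.1 s.2).symm)
    refine (h1.iso (blInv _ _ _ s.1 s.2)).iso
      (blCongr (fun _ _ => Iff.rfl) (fun a j => ?_) fun _ _ => Iff.rfl)
    rw [Finset.mem_insert, Prod.ext_iff]

/-- The property is true for all families with zeros, invertible entries, prescribed entries and
orthogonality relations between two groups of vectors. -/
theorem hold_bl (hP : Bnd sep P) (hone : Hold P (one R)) (hH : GHyp P κ)
    [Fintype J] {ρ : B → Q} {τ : B' → J} (he : Emb κ k ρ τ) (A E : Q → J → Prop)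
    (S : J → J → Prop) (σ : J → Bool)
    (hσ : ∀ j j', S j j' → σ j = false ∧ σ j' = true) (hk : ∀ y, σ (τ y) = false)
    (hA : ∀ x y r, κ x y = some r → A (ρ x) (τ y) ∧ ¬ E (ρ x) (τ y)) :
    Hold P (Bl R k A E S) := by
  refine (hold_blE hP hone hH he S σ hσ hk (Finset.univ.filter fun s => E s.1 s.2) A
    fun x y r h => ⟨(hA x y r h).1, fun h' => (hA x y r h).2 ?_⟩).iso
    (blCongr (fun _ _ => Iff.rfl) (fun a j => ?_) fun _ _ => Iff.rfl)
  · exact (Finset.mem_filter.1 h').2
  · simp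

end Pool.Agent.H26.GF
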